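import Pool.Agent.Helper80_RS2.Glue

/-!
# MP_ff6f12_co: module ASM (squad RS2)
-/

set_option autoImplicit false

open SimpleGraph

namespace Pool.Agent.RS81

open Pool.Agent.RS80

variable {V K L : Type}

theorem asm_core [Finite K] [Finite L] {B : SimpleGraph V} (hB : TwoConn B) {ℓ : V → ℕ} {m : ℕ}
    (hm : 1 ≤ m) {G1 : SimpleGraph K} {u1 : K} {G2 : SimpleGraph L} {u2 : L}
    {R S : SimpleGraph (Option (K ⊕ L))}
    (hRS : Good (pendL B ℓ) (cone (glue G1 u1 G2 u2) {Sum.inl u1}) R S)
    (h1 : Near B ℓ 1 (R.comap (fun a => some (Sum.inl a))) u1)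
    (h1' : m - 1 ≤ ((S.comap (fun a => some (Sum.inl a))).neighborSet u1).ncard)
    (h2 : Near B ℓ m (R.comap (fun a => some (jmap u1 u2 a))) u2 ∨
      Near B ℓ m (S.comap (fun a => some (jmap u1 u2 a))) u2) : False := by
  classical
  have hi1 : Function.Injective (fun a : K => some (Sum.inl a : K ⊕ L)) := fun a b hab =>
    Sum.inl_injective (Option.some_injective _ hab)
  have hi2 : Function.Injective (fun a : L => some (jmap u1 u2 a)) := fun a b hab =>
    jmap_injective u1 u2 (Option.some_injective _ hab)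
  have hno : ∀ e, R.Adj (some (Sum.inl u1)) e → (∀ a, some (Sum.inl a) ≠ e) → False := by
    intro e he hout
    have := h1.ext (k' := 0) (TwoConn.adj' hB) (R := R) _ hi1 (fun a b hab => hab) {e}
      (by intro x hx; rw [Finset.mem_singleton] at hx; rw [hx]; exact he)
      (by intro x hx a; rw [Finset.mem_singleton] at hx; rw [hx]; exact hout a) (by simp)
    exact hRS.2.1 this.zero
  have h3 : Near B ℓ m (S.comap (fun a => some (jmap u1 u2 a))) u2 := by
    rcases h2 with h2 | h2
    · exfalso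
      obtain ⟨w, hw⟩ := h2.exists_adj hB
      rw [comap_adj] at hw
      have hwu : w ≠ u2 := by
        rintro rfl
        exact R.irrefl hw
      rw [jmap_root, jmap_ne u1 hwu] at hw
      exact hno _ hw (fun a => by simp)
    · exact h2
  have hpen : S.Adj (some (Sum.inl u1)) none := by
    have hadj : (cone (glue G1 u1 G2 u2) {Sum.inl u1}).Adj (some (Sum.inl u1)) none :=
      Set.mem_singleton _
    rcases hRS.adj hadj with h | h
    · exact (hno _ h (fun a => by simp)).elim
    · exact h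
  have hfin : ((S.comap (fun a => some (Sum.inl a : K ⊕ L))).neighborSet u1).Finite :=
    Set.toFinite _
  set E : Finset (Option (K ⊕ L)) := insert none
    (hfin.toFinset.map ⟨fun a : K => some (Sum.inl a : K ⊕ L), hi1⟩) with hE
  have hEc : m ≤ 0 + E.card := by
    rw [hE, Finset.card_insert_of_notMem, Finset.card_map,
      ← Set.ncard_eq_toFinset_card _ hfin]
    · omega
    · intro h
      rw [Finset.mem_map] at h
      obtain ⟨a, -, ha⟩ := h
      exact absurd ha (by simp)
  have := h3.ext (k' := 0) (TwoConn.adj' hB) (R := S) _ hi2 (fun a b hab => hab) E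
    (by
      intro e he
      rw [jmap_root]
      rw [hE, Finset.mem_insert, Finset.mem_map] at he
      rcases he with rfl | ⟨a, ha, rfl⟩
      · exact hpen
      · rw [Set.Finite.mem_toFinset] at ha
        exact ha)
    (by
      intro e he a hae
      rw [hE, Finset.mem_insert, Finset.mem_map] at he
      rcases he with rfl | ⟨b, hb, rfl⟩
      · exact absurd hae (by simp)
      · rw [Set.Finite.mem_toFinset] at hb
        change some (jmap u1 u2 a) = some (Sum.inl b) at hae
        by_cases hau : a = u2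
        · rw [hau, jmap_root] at hae
          have : u1 = b := Sum.inl_injective (Option.some_injective _ hae)
          rw [this] at hb
          exact S.irrefl hb
        · rw [jmap_ne u1 hau] at hae
          exact absurd hae (by simp)) hEc
  exact hRS.2.2 this.zero

theorem asm (hCel : CelStmt) : AsmStmt := by
  intro V _ B ℓ hB hc hl hne hP
  obtain ⟨v0, hv0⟩ := hl
  have : Nonempty V := ⟨v0⟩
  obtain ⟨z, hz⟩ := Finite.exists_max ℓ
  obtain ⟨m, hm⟩ : ∃ m, m = ℓ z := ⟨_, rfl⟩
  have hml : ∀ v, ℓ v ≤ m := fun v => hm ▸ hz v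
  have hm1 : 1 ≤ m := by
    have := hml v0
    omega
  obtain ⟨K, _, G1, u1, h1, R1, S1, hg1, hd1, hn1, -⟩ :=
    hCel V B ℓ m hB hc hml ⟨z, hm.symm⟩ hne hP 1 le_rfl hm1
  obtain ⟨L, _, G2, u2, h2, R2, S2, hg2, hd2, hn2, hn2'⟩ :=
    hCel V B ℓ m hB hc hml ⟨z, hm.symm⟩ hne hP m hm1 le_rfl
  have hC : InC (pendL B ℓ) (glue G1 u1 G2 u2) := by
    refine ⟨glue R1 u1 S2 u2, glue S1 u1 R2 u2, ?_, ?_, ?_⟩
    · rw [glue_sup, hg1.1, sup_comm S2 R2, hg2.1]
    · refine (glu V B ℓ hB K L R1 u1 S2 u2).1 hg1.2.1 hg2.2.2 ?_ (hn2 _)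
      rw [hd2, Nat.sub_self]
      exact fun h => hg1.2.1 h.zero
    · refine (glu V B ℓ hB K L S1 u1 R2 u2).1 hg1.2.2 hg2.2.1 (hn1 _) ?_
      rw [hd1]
      exact hn2'
  obtain ⟨R, S, hRS⟩ := hP _ _ (Sum.inl u1) hC
  have hi1 : Function.Injective (fun a : K => some (Sum.inl a : K ⊕ L)) := fun a b hab =>
    Sum.inl_injective (Option.some_injective _ hab)
  have hi2 : Function.Injective (fun a : L => some (jmap u1 u2 a)) := fun a b hab =>
    jmap_injective u1 u2 (Option.some_injective _ hab)
  have hc1 : Good (pendL B ℓ) G1 (R.comap (fun a => some (Sum.inl a)))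
      (S.comap (fun a => some (Sum.inl a))) :=
    hRS.comap (G' := G1) _ hi1 (fun a b => Iff.rfl)
  have hc2 : Good (pendL B ℓ) G2 (R.comap (fun a => some (jmap u1 u2 a)))
      (S.comap (fun a => some (jmap u1 u2 a))) := by
    refine hRS.comap (G' := G2) _ hi2 (fun a b => ?_)
    have e : (glue G1 u1 G2 u2).Adj (jmap u1 u2 a) (jmap u1 u2 b) ↔ G2.Adj a b := by
      rw [← comap_adj, glue_comap_jmap]
    exact e.symm
  have h2' := h2 _ _ hc2
  rcases h1 _ _ hc1 with ⟨ha, hb⟩ | ⟨ha, hb⟩
  · refine asm_core hB hm1 hRS ha (hb rfl) ?_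
    rcases h2' with h | h
    · exact Or.inl h.1
    · exact Or.inr h.1
  · refine asm_core hB hm1 hRS.swap ha (hb rfl) ?_
    rcases h2' with h | h
    · exact Or.inr h.1
    · exact Or.inl h.1

end Pool.Agent.RS81
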