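import Pool.Agent.Helper80_RS2.Glue

/-!
# MP_ff6f12_co: module CEL (squad RS2)
-/

set_option autoImplicit false

open SimpleGraph

namespace Pool.Agent.RS81

open Pool.Agent.RS80

variable {V K L : Type}

/-- The clique on a set. -/
def clq {K : Type} (P : Set K) : SimpleGraph K where
  Adj a b := a ≠ b ∧ a ∈ P ∧ b ∈ P
  symm := ⟨fun _ _ h => ⟨h.1.symm, h.2.2, h.2.1⟩⟩
  loopless := ⟨fun _ h => h.1 rfl⟩

/-- A graph without isolated vertices in a clique. -/
theorem card_le_of_clq {W : Type} [Finite K] {H : SimpleGraph W} (hH : ∀ x, ∃ y, H.Adj x y)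
    {P : Set K} (f : Copy H (clq P)) : Nat.card W ≤ P.ncard := by
  have hmem : ∀ x, f x ∈ P := by
    intro x
    obtain ⟨y, hy⟩ := hH x
    exact (f.toHom.map_rel hy).2.1
  have hinj : Function.Injective (fun x => (⟨f x, hmem x⟩ : P)) := fun a b hab =>
    f.injective (congrArg Subtype.val hab)
  have := Nat.card_le_card_of_injective _ hinj
  rwa [Nat.card_coe_set_eq] at this

theorem pendL_adj {B : SimpleGraph V} (hB : TwoConn B) (ℓ : V → ℕ)
    (x : V ⊕ Σ v, Fin (ℓ v)) : ∃ y, (pendL B ℓ).Adj x y := by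
  rcases x with v | y
  · obtain ⟨u, hu⟩ := hB.exists_adj v
    exact ⟨Sum.inl u, hu⟩
  · exact ⟨Sum.inl y.1, rfl⟩

theorem card_pendL [Fintype V] (ℓ : V → ℕ) :
    Nat.card (V ⊕ Σ v, Fin (ℓ v)) = Nat.card V + ∑ v, ℓ v := by
  rw [Nat.card_eq_fintype_card, Fintype.card_sum, Fintype.card_sigma, Nat.card_eq_fintype_card]
  simp

theorem sum_low [Fintype V] (ℓ : V → ℕ) (z : V) {k : ℕ} (hk : k ≤ ℓ z) :
    ∑ v, low ℓ z k v + k = ∑ v, ℓ v := by
  classical
  have h1 : ∀ f : V → ℕ, ∑ v, f v = ∑ v ∈ Finset.univ.erase z, f v + f z := fun f =>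
    (Finset.sum_erase_add _ _ (Finset.mem_univ z)).symm
  rw [h1 (low ℓ z k), h1 ℓ, low_self]
  have h2 : ∑ v ∈ Finset.univ.erase z, low ℓ z k v = ∑ v ∈ Finset.univ.erase z, ℓ v := by
    refine Finset.sum_congr rfl fun v hv => ?_
    rw [low_ne _ _ (Finset.ne_of_mem_erase hv)]
  omega

theorem sum_low_ge [Fintype V] (ℓ : V → ℕ) (z : V) (k : ℕ) :
    ∑ v, ℓ v ≤ ∑ v, low ℓ z k v + k := by
  classical
  have h1 : ∀ f : V → ℕ, ∑ v, f v = ∑ v ∈ Finset.univ.erase z, f v + f z := fun f =>
    (Finset.sum_erase_add _ _ (Finset.mem_univ z)).symm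
  rw [h1 (low ℓ z k), h1 ℓ, low_self]
  have h2 : ∑ v ∈ Finset.univ.erase z, low ℓ z k v = ∑ v ∈ Finset.univ.erase z, ℓ v := by
    refine Finset.sum_congr rfl fun v hv => ?_
    rw [low_ne _ _ (Finset.ne_of_mem_erase hv)]
  omega

/-- The neighbours of `z` in `pendL B (low ℓ z j)`. -/
theorem nbr_card [Finite V] {B : SimpleGraph V} (ℓ : V → ℕ) (z : V) (c : B.Coloring Bool) :
    ((pendL B ℓ).neighborSet (Sum.inl z)).ncard + {v | c v = c z}.ncard ≤ Nat.card V + ℓ z := by
  classical
  have hsub : (pendL B ℓ).neighborSet (Sum.inl z) ⊆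
      Sum.inl '' {v | c v ≠ c z} ∪ Sum.inr '' (Set.range (fun i : Fin (ℓ z) =>
        (⟨z, i⟩ : Σ v, Fin (ℓ v)))) := by
    rintro (v | ⟨v, i⟩) h
    · left
      refine ⟨v, fun hh => ?_, rfl⟩
      have h' : B.Adj z v := h
      exact c.valid h' hh.symm
    · right
      have h' : z = v := h
      subst h'
      exact ⟨⟨z, i⟩, ⟨i, rfl⟩, rfl⟩
  have h1 : ((pendL B ℓ).neighborSet (Sum.inl z)).ncard ≤ {v | c v ≠ c z}.ncard + ℓ z := by
    refine (Set.ncard_le_ncard hsub (Set.toFinite _)).trans ((Set.ncard_union_le _ _).trans ?_)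
    refine Nat.add_le_add ?_ ?_
    · rw [Set.ncard_image_of_injective _ Sum.inl_injective]
    · rw [Set.ncard_image_of_injective _ Sum.inr_injective, ← Set.image_univ]
      refine (Set.ncard_image_le (Set.toFinite _)).trans ?_
      rw [Set.ncard_univ, Nat.card_eq_fintype_card, Fintype.card_fin]
  have h2 : {v | c v ≠ c z}.ncard + {v | c v = c z}.ncard = Nat.card V := by
    have := Set.ncard_add_ncard_compl {v | c v = c z}
    rw [← this, add_comm]
    rfl
  omega

/-- Everything about the cell, the gadgets at `T` all `1`-near in `R`. -/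
theorem cell_core [Finite V] [Finite K] [Finite L] {B : SimpleGraph V} (hB : TwoConn B)
    {ℓ : V → ℕ} {m j : ℕ} (hm : ∀ v, ℓ v ≤ m) (c : B.Coloring Bool) {z : V} (hz : ℓ z = m)
    (hj1 : 1 ≤ j) (hjm : j ≤ m) {D : SimpleGraph K} {P : Set K} {u : K} (hu : u ∉ P)
    (hPc : P.ncard = Nat.card (V ⊕ Σ v, Fin (ℓ v)) - 1 - j)
    (hind : ∀ p ∈ insert u P, ∀ p' ∈ insert u P, ¬ D.Adj p p')
    (hdeg : (D.neighborSet u).ncard = m - j)
    (hedge : ∀ p ∈ P, ∀ p' ∈ P, p ≠ p' → pendL B ℓ ⊑ D ⊔ edge p p')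
    (hstar : ∀ S ⊆ P, S.ncard = {v | c v = c z}.ncard →
        pendL B ℓ ⊑ D ⊔ starG u S ∨ Near B ℓ (m - (m - j)) (D ⊔ starG u S) u)
    (hbig : m ≤ (m - j) + 1 → ∀ S ⊆ P, Nat.card V ≤ S.ncard + 1 →
        {v | c v = c z}.ncard ≤ S.ncard → pendL B ℓ ⊑ D ⊔ starG u S)
    {Q : SimpleGraph L} {t : L} {R S : SimpleGraph (K ⊕ K × L)}
    (hRS : Good (pendL B ℓ) (mglue (D ⊔ clq (insert u P)) (insert u P)ᶜ Q t) R S)
    (hred : ∀ x ∉ insert u P, ∀ y, ¬ R.Adj (Sum.inl x) (Sum.inl y)) :
    (Near B ℓ j R (Sum.inl u) ∧ (j = 1 → m - 1 ≤ (S.neighborSet (Sum.inl u)).ncard)) ∨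
      (Near B ℓ j S (Sum.inl u) ∧ (j = 1 → m - 1 ≤ (R.neighborSet (Sum.inl u)).ncard)) := by
  classical
  have := Fintype.ofFinite V
  have hmj : m - (m - j) = j := by omega
  rw [hmj] at hstar
  have hcard := card_pendL ℓ
  have hsum : ∑ v, low ℓ z j v + j = ∑ v, ℓ v := sum_low ℓ z (by omega)
  have hcard' := card_pendL (low ℓ z j)
  have hmS : m ≤ ∑ v, ℓ v := by
    rw [← hz]
    exact Finset.single_le_sum (f := ℓ) (fun _ _ => Nat.zero_le _) (Finset.mem_univ z)
  -- skeleton edges are in `S`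
  have hDS : ∀ a b, D.Adj a b → S.Adj (Sum.inl a) (Sum.inl b) := by
    intro a b hab
    have hG : (mglue (D ⊔ clq (insert u P)) (insert u P)ᶜ Q t).Adj (Sum.inl a) (Sum.inl b) :=
      Or.inl hab
    rcases hRS.adj hG with h | h
    · exfalso
      by_cases ha : a ∈ insert u P
      · by_cases hb : b ∈ insert u P
        · exact hind a ha b hb hab
        · exact hred b hb a h.symm
      · exact hred a ha b h
    · exact h
  have hcl : ∀ a b, a ∈ insert u P → b ∈ insert u P → a ≠ b →
      ¬ S.Adj (Sum.inl a) (Sum.inl b) → R.Adj (Sum.inl a) (Sum.inl b) := by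
    intro a b ha hb hab h
    have hG : (mglue (D ⊔ clq (insert u P)) (insert u P)ᶜ Q t).Adj (Sum.inl a) (Sum.inl b) :=
      Or.inr ⟨hab, ha, hb⟩
    exact (hRS.adj hG).resolve_right h
  have hmap : ∀ X : SimpleGraph K, (∀ a b, X.Adj a b → S.Adj (Sum.inl a) (Sum.inl b)) →
      pendL B ℓ ⊑ X → False := by
    rintro X hX ⟨f⟩
    exact hRS.2.2 ⟨⟨⟨fun a => Sum.inl (f a), fun {a b} hab => hX _ _ (f.toHom.map_rel hab)⟩,
      fun a b hab => f.injective (Sum.inl_injective hab)⟩⟩
  -- `P` is an `R`-clique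
  have hPR : ∀ p ∈ P, ∀ p' ∈ P, p ≠ p' → R.Adj (Sum.inl p) (Sum.inl p') := by
    intro p hp p' hp' hpp
    refine hcl p p' (Or.inr hp) (Or.inr hp') hpp fun h => ?_
    refine hmap _ ?_ (hedge p hp p' hp' hpp)
    intro a b hab
    rcases hab with hab | hab
    · exact hDS a b hab
    · rw [edge_adj] at hab
      rcases hab.1 with ⟨rfl, rfl⟩ | ⟨rfl, rfl⟩
      · exact h
      · exact h.symm
  set Su : Set K := {p | p ∈ P ∧ S.Adj (Sum.inl u) (Sum.inl p)} with hSu
  have hSuP : Su ⊆ P := fun p hp => hp.1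
  set Ru : Set K := {p | p ∈ P ∧ R.Adj (Sum.inl u) (Sum.inl p)} with hRu
  have hRuP : Ru ⊆ P := fun p hp => hp.1
  have hRSc : P.ncard ≤ Ru.ncard + Su.ncard := by
    refine (Set.ncard_le_ncard ?_ (Set.toFinite _)).trans (Set.ncard_union_le _ _)
    intro p hp
    by_cases h : S.Adj (Sum.inl u) (Sum.inl p)
    · exact Or.inr ⟨hp, h⟩
    · exact Or.inl ⟨hp, hcl u p (Or.inl rfl) (Or.inr hp) (fun h => hu (h ▸ hp)) h⟩
  have hstarS : ∀ S' ⊆ Su, ∀ a b, (D ⊔ starG u S').Adj a b → S.Adj (Sum.inl a) (Sum.inl b) := by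
    intro S' hS' a b hab
    rcases hab with hab | hab
    · exact hDS a b hab
    · rw [starG, fromRel_adj] at hab
      rcases hab.2 with ⟨rfl, h⟩ | ⟨rfl, h⟩
      · exact (hS' h).2
      · exact (hS' h).2.symm
  by_cases hs : {v | c v = c z}.ncard ≤ Su.ncard
  · -- many `S`-edges at `u`
    right
    obtain ⟨S', hS', hS'c⟩ := Set.exists_subset_card_eq hs
    refine ⟨?_, ?_⟩
    · rcases hstar S' (hS'.trans hSuP) hS'c with h | h
      · exact (hmap _ (hstarS S' hS') h).elim
      · exact h.map Sum.inl Sum.inl_injective (hstarS S' hS')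
    · intro hj
      have hlt : Su.ncard + 1 < Nat.card V := by
        by_contra hcon
        push Not at hcon
        exact hmap _ (hstarS Su le_rfl) (hbig (by omega) Su hSuP hcon hs)
      have hle : Ru.ncard ≤ (R.neighborSet (Sum.inl u)).ncard := by
        rw [← Set.ncard_image_of_injective Ru (Sum.inl_injective (α := K) (β := K × L))]
        refine Set.ncard_le_ncard ?_ (Set.toFinite _)
        rintro _ ⟨p, hp, rfl⟩
        exact hp.2
      omega
  · -- few `S`-edges at `u`
    left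
    push Not at hs
    refine ⟨?_, ?_⟩
    · have hnb := nbr_card (B := B) (low ℓ z j) z c
      rw [low_self, hz] at hnb
      -- the injection
      obtain ⟨g, hg1, hg2, hg3⟩ := exists_inj
        (X := {x : V ⊕ Σ v, Fin (low ℓ z j v) // x ≠ Sum.inl z})
        {x | (pendL B (low ℓ z j)).Adj (Sum.inl z) x.1} Ru P hRuP (Set.toFinite _)
        (by
          have h1 : ({x | (pendL B (low ℓ z j)).Adj (Sum.inl z) x.1} :
              Set {x : V ⊕ Σ v, Fin (low ℓ z j v) // x ≠ Sum.inl z}).ncard ≤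
              ((pendL B (low ℓ z j)).neighborSet (Sum.inl z)).ncard := by
            rw [← Set.ncard_image_of_injective _ Subtype.val_injective]
            refine Set.ncard_le_ncard ?_ (Set.toFinite _)
            rintro _ ⟨x, hx, rfl⟩
            exact hx
          omega)
        (by
          have h1 : Nat.card {x : V ⊕ Σ v, Fin (low ℓ z j v) // x ≠ Sum.inl z} =
              Nat.card (V ⊕ Σ v, Fin (low ℓ z j v)) - 1 := by
            have h2 := Set.ncard_compl ({Sum.inl z} : Set (V ⊕ Σ v, Fin (low ℓ z j v)))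
            rw [Set.ncard_singleton, ← Nat.card_coe_set_eq] at h2
            exact h2
          omega)
      let f : V ⊕ (Σ v, Fin (low ℓ z j v)) → K ⊕ K × L := fun x =>
        if h : x = Sum.inl z then Sum.inl u else Sum.inl (g ⟨x, h⟩)
      have hfz : f (Sum.inl z) = Sum.inl u := by simp [f]
      have hfn : ∀ x (h : x ≠ Sum.inl z), f x = Sum.inl (g ⟨x, h⟩) := fun x h => by
        simp only [f, dif_neg h]
      have hgu : ∀ x, g x ≠ u := fun x hx => hu (hx ▸ hg2 x)
      refine ⟨z, by omega, ⟨⟨f, ?_⟩, ?_⟩, hfz⟩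
      · intro x y hxy
        by_cases hx : x = Sum.inl z
        · have hy : y ≠ Sum.inl z := fun h => hxy.ne (hx.trans h.symm)
          rw [hx, hfz, hfn y hy]
          rw [hx] at hxy
          exact (hg3 ⟨y, hy⟩ hxy).2
        · by_cases hy : y = Sum.inl z
          · rw [hy, hfz, hfn x hx]
            rw [hy] at hxy
            exact (hg3 ⟨x, hx⟩ hxy.symm).2.symm
          · rw [hfn x hx, hfn y hy]
            refine hPR _ (hg2 _) _ (hg2 _) fun h => hxy.ne ?_
            exact congrArg Subtype.val (hg1 h)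
      · intro x y hxy
        change f x = f y at hxy
        by_cases hx : x = Sum.inl z
        · by_cases hy : y = Sum.inl z
          · rw [hx, hy]
          · rw [hx, hfz, hfn y hy] at hxy
            exact absurd (Sum.inl_injective hxy).symm (hgu _)
        · by_cases hy : y = Sum.inl z
          · rw [hy, hfz, hfn x hx] at hxy
            exact absurd (Sum.inl_injective hxy) (hgu _)
          · rw [hfn x hx, hfn y hy] at hxy
            exact congrArg Subtype.val (hg1 (Sum.inl_injective hxy))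
    · intro hj
      have hle : (D.neighborSet u).ncard ≤ (S.neighborSet (Sum.inl u)).ncard := by
        rw [← Set.ncard_image_of_injective (D.neighborSet u)
          (Sum.inl_injective (α := K) (β := K × L))]
        refine Set.ncard_le_ncard ?_ (Set.toFinite _)
        rintro _ ⟨p, hp, rfl⟩
        exact hDS u p hp
      omega

theorem cel (hRed : RedStmt) (hSke : SkeStmt) : CelStmt := by
  classical
  intro V _ B ℓ m hB hcol hm hzex hne hP j hj1 hjm
  have := Fintype.ofFinite V
  obtain ⟨z, hz⟩ := hzex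
  obtain ⟨L, _, Q, t, hQC, hQP⟩ := hRed V B ℓ m hB hcol hm ⟨z, by omega⟩ hne hP
  obtain ⟨RQ, SQ, hQ, -, hSt⟩ : ∃ R S, Good (pendL B ℓ) Q R S ∧ Near B ℓ 1 R t ∧
      ¬ Near B ℓ m S t := by
    obtain ⟨R, S, hRS⟩ := hQC
    rcases hQP R S hRS with ⟨h1, h2⟩ | ⟨h1, h2⟩
    · exact ⟨R, S, hRS, h1, h2⟩
    · exact ⟨S, R, hRS.swap, h1, h2⟩
  obtain ⟨c₀⟩ := hcol
  let c : B.Coloring Bool := Coloring.mk (fun v => decide (c₀ v = 0)) (by
    intro a b hab heq
    have h1 := c₀.valid hab
    have h2 : (c₀ a = 0) ↔ (c₀ b = 0) := by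
      simpa using heq
    apply h1
    omega)
  obtain ⟨K, _, D, P, u, hDB, huP, hPc, hind, ⟨t₀, ht₀⟩, hlink, hdeg, hedge, hstar, hbig⟩ :=
    hSke V B ℓ m hB hm c z (m - j) (Nat.card (V ⊕ Σ v, Fin (ℓ v)) - 1 - j) (Nat.sub_le _ _)
  have hcard := card_pendL ℓ
  have hmS : m ≤ ∑ v, ℓ v := by
    rw [← hz]
    exact Finset.single_le_sum (f := ℓ) (fun _ _ => Nat.zero_le _) (Finset.mem_univ z)
  have hV : 3 ≤ Nat.card V := hB.1
  have hPPc : (insert u P).ncard = Nat.card (V ⊕ Σ v, Fin (ℓ v)) - j := by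
    rw [Set.ncard_insert_of_notMem huP, hPc]
    omega
  have huT : u ∉ (insert u P)ᶜ := fun h => h (Or.inl rfl)
  set G : SimpleGraph (K ⊕ K × L) := mglue (D ⊔ clq (insert u P)) (insert u P)ᶜ Q t with hG
  refine ⟨K ⊕ K × L, inferInstance, G, Sum.inl u, ?_, ?_⟩
  · intro R S hRS
    -- the two colours at the gadgets
    have hgad : ∀ x ∈ (insert u P)ᶜ, Good (pendL B ℓ) Q (R.comap (jm x t)) (S.comap (jm x t)) := by
      intro x hx
      refine hRS.comap (jm x t) (jm_injective x t) ?_
      intro a b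
      rw [← comap_adj, hG, mglue_comap_jm _ _ Q t hx]
    -- a near gadget forbids host edges
    have hforb : ∀ X : SimpleGraph (K ⊕ K × L), (pendL B ℓ).Free X → ∀ x ∈ (insert u P)ᶜ,
        Near B ℓ 1 (X.comap (jm x t)) t → ∀ y, ¬ X.Adj (Sum.inl x) (Sum.inl y) := by
      intro X hX x hx hn y hxy
      apply hX
      have hxy' : x ≠ y := fun h => X.irrefl (h ▸ hxy)
      have := hn.ext (k' := 0) (TwoConn.adj' hB) (R := X) (jm x t) (jm_injective x t)
        (fun a b hab => hab) {Sum.inl y} (by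
          intro e he
          rw [Finset.mem_singleton] at he
          rw [he, jm_root]
          exact hxy) (by
          intro e he a ha
          rw [Finset.mem_singleton] at he
          rw [he] at ha
          by_cases hat : a = t
          · rw [hat, jm_root] at ha
            exact hxy' (Sum.inl_injective ha)
          · rw [jm_ne x hat] at ha
            exact absurd ha (by simp)) (by simp)
      exact this.zero
    have hcase : ∀ x ∈ (insert u P)ᶜ, Near B ℓ 1 (R.comap (jm x t)) t ∨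
        Near B ℓ 1 (S.comap (jm x t)) t := by
      intro x hx
      rcases hQP _ _ (hgad x hx) with h | h
      · exact Or.inl h.1
      · exact Or.inr h.1
    -- the same colour along host edges
    have hprop : ∀ X Y : SimpleGraph (K ⊕ K × L), (pendL B ℓ).Free X → (pendL B ℓ).Free Y →
        (∀ a b, G.Adj a b → X.Adj a b ∨ Y.Adj a b) →
        (∀ x ∈ (insert u P)ᶜ, Near B ℓ 1 (X.comap (jm x t)) t ∨
          Near B ℓ 1 (Y.comap (jm x t)) t) →
        Near B ℓ 1 (X.comap (jm t₀ t)) t → ∀ x ∈ (insert u P)ᶜ,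
          Near B ℓ 1 (X.comap (jm x t)) t := by
      intro X Y hX hY hXY hor h0 x hx
      have := hlink t₀ ht₀ x hx
      induction this with
      | refl => exact h0
      | tail hab hbc ih =>
        rename_i b c'
        have hb : b ∈ (insert u P)ᶜ := hbc.1
        have ihb := ih hb
        rcases hor c' hx with h | h
        · exact h
        · exfalso
          have hGbc : G.Adj (Sum.inl b) (Sum.inl c') := Or.inl hbc.2.2
          rcases hXY _ _ hGbc with h1 | h1
          · exact hforb X hX b hb ihb _ h1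
          · exact hforb Y hY c' hx h _ h1.symm
    rcases hcase t₀ ht₀ with h0 | h0
    · refine cell_core hB hm c hz hj1 hjm huP hPc hind hdeg hedge hstar hbig hRS ?_
      intro x hx y
      exact hforb R hRS.2.1 x hx (hprop R S hRS.2.1 hRS.2.2 (fun a b hab => hRS.adj hab) hcase
        h0 x hx) y
    · have hSR := hRS.swap
      have := cell_core hB hm c hz hj1 hjm huP hPc hind hdeg hedge hstar hbig hSR (by
        intro x hx y
        exact hforb S hRS.2.2 x hx (hprop S R hRS.2.2 hRS.2.1 (fun a b hab => hSR.adj hab)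
          (fun x hx => (hcase x hx).symm) h0 x hx) y)
      exact this.symm
  · -- the good colouring
    have hclf : (pendL B ℓ).Free (clq (insert u P)) := by
      rintro ⟨f⟩
      have := card_le_of_clq (pendL_adj hB ℓ) f
      omega
    have hR := (mgl V B ℓ m hB hm K L (clq (insert u P)) (insert u P)ᶜ RQ t).2 hclf hQ.2.1
      (fun x hx y hy => hx hy.2.1)
    have hS := (mgl V B ℓ m hB hm K L D (insert u P)ᶜ SQ t).1 hDB hQ.2.2 hSt
    refine ⟨mglue (clq (insert u P)) (insert u P)ᶜ RQ t, mglue D (insert u P)ᶜ SQ t,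
      ⟨?_, hR.1, hS.1⟩, ?_, hS.2 u huT, ?_⟩
    · rw [mglue_sup, hQ.1, sup_comm (clq _) D]
    · have : (mglue D (insert u P)ᶜ SQ t).neighborSet (Sum.inl u) =
          Sum.inl '' (D.neighborSet u) := by
        ext x
        rcases x with b | y
        · constructor
          · intro h
            exact ⟨b, h, rfl⟩
          · rintro ⟨b', h, hb⟩
            rw [← Sum.inl_injective hb]
            exact h
        · constructor
          · intro h
            exact absurd h.1 huT
          · rintro ⟨b', h, hb⟩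
            exact absurd hb (by simp)
      rw [this, Set.ncard_image_of_injective _ Sum.inl_injective]
      exact hdeg
    · intro hcon
      have := hR.2 u huT (j - 1) hcon
      obtain ⟨z', hz', f, -⟩ := this
      have h1 := card_le_of_clq (pendL_adj hB _) f
      have h2 := card_pendL (low ℓ z' (j - 1))
      have h3 := sum_low_ge ℓ z' (j - 1)
      omega

end Pool.Agent.RS81
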