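import Pool.Agent.Helper80_RS2.Stmts

/-!
# MP_ff6f12_co: block lemmas GLU, MGL (squad RS2)
-/

set_option autoImplicit false

open SimpleGraph

namespace Pool.Agent.RS81

open Pool.Agent.RS80

variable {V K L : Type}

/-- Restriction of a copy to a part of the graph; the number of pendant edges lost at `v` is at
most the number of neighbours of `φ v` outside the part. -/
theorem PA.restr {B : SimpleGraph V} {ℓ ℓ' : V → ℕ} {X : SimpleGraph K} {Q : SimpleGraph L}
    {φ : V → K} (h : PA B ℓ X φ) (ι : L → K) (hι : Function.Injective ι)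
    (hQ : ∀ a b, X.Adj (ι a) (ι b) → Q.Adj a b) (g : V → L) (hg : ∀ v, φ v = ι (g v))
    (hout : ∀ v, ∀ E : Finset K, (∀ e ∈ E, X.Adj (φ v) e ∧ ∀ a, e ≠ ι a) →
      ℓ' v ≤ ℓ v - E.card) : PA B ℓ' Q g := by
  obtain ⟨h1, h2, A, h3, h4, h5⟩ := h
  classical
  refine ⟨fun a b hab => h1 (by rw [hg, hg, hab]), fun u v huv => hQ _ _ (by
    rw [← hg, ← hg]; exact h2 u v huv), fun v => (A v).preimage ι hι.injOn, ?_, ?_, ?_⟩
  · intro v
    have e1 : ((A v).preimage ι hι.injOn).card = ((A v).filter (fun x => x ∈ Set.range ι)).card := by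
      rw [Finset.card_preimage]
    have e2 := Finset.card_filter_add_card_filter_not (s := A v) (fun x => x ∈ Set.range ι)
    have e3 := hout v ((A v).filter (fun x => x ∉ Set.range ι)) (by
      intro e he
      rw [Finset.mem_filter] at he
      exact ⟨(h4 v e he.1).1, fun a ha => he.2 ⟨a, ha.symm⟩⟩)
    have e4 := h3 v
    rw [e1]
    omega
  · intro v a ha
    rw [Finset.mem_preimage] at ha
    obtain ⟨ha1, ha2⟩ := h4 v _ ha
    refine ⟨hQ _ _ (by rw [← hg]; exact ha1), fun w hw => ha2 w (by rw [hg, hw])⟩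
  · intro u v huv
    rw [Finset.disjoint_left]
    intro a ha hb
    rw [Finset.mem_preimage] at ha hb
    exact Finset.disjoint_left.1 (h5 u v huv) ha hb

theorem card_le_of_nbr [Finite K] {G : SimpleGraph K} {k : K} {α : Type} (E : Finset α)
    (f : α → K) (hf : ∀ a ∈ E, ∀ b ∈ E, f a = f b → a = b) (h : ∀ a ∈ E, G.Adj k (f a)) :
    E.card ≤ (G.neighborSet k).ncard := by
  classical
  rw [← Set.ncard_coe_finset, ← Set.InjOn.ncard_image (f := f) (s := (E : Set α))
    (fun a ha b hb hab => hf a ha b hb hab)]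
  refine Set.ncard_le_ncard ?_ (Set.toFinite _)
  rintro x ⟨a, ha, rfl⟩
  exact h a ha

/-- The common part of the two halves of GLU. -/
theorem glue_cases [Finite K] [Finite L] {B : SimpleGraph V} (hB : TwoConn B) {ℓ : V → ℕ}
    (G : SimpleGraph K) (k : K) (Q : SimpleGraph L) (r : L) {φ : V → K ⊕ L}
    (h : PA B ℓ (glue G k Q r) φ) :
    (∃ g : V → K, (∀ v, φ v = Sum.inl (g v)) ∧ ∀ ℓ' : V → ℕ, (∀ v, ℓ' v ≤ ℓ v) →
      (∀ v, g v = k → ℓ' v ≤ ℓ v - (Q.neighborSet r).ncard) → PA B ℓ' G g) ∨
    (∃ g : V → L, (∀ v, φ v = jmap k r (g v)) ∧ ∀ ℓ' : V → ℕ, (∀ v, ℓ' v ≤ ℓ v) →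
      (∀ v, g v = r → ℓ' v ≤ ℓ v - (G.neighborSet k).ncard) → PA B ℓ' Q g) := by
  rcases glue_block hB G k Q r ⟨⟨φ, fun {a b} hab => h.2.1 a b hab⟩, h.1⟩ with h1 | h1
  · left
    change ∀ v, ∃ b, φ v = Sum.inl b at h1
    choose g hg using h1
    refine ⟨g, hg, fun ℓ' hl1 hl2 => h.restr Sum.inl Sum.inl_injective (fun a b hab => hab) g hg ?_⟩
    intro v E hE
    have hE' : ∀ e ∈ E, ∃ y, e = Sum.inr y ∧ g v = k ∧ Q.Adj r y := by
      intro e he
      obtain ⟨he1, he2⟩ := hE e he
      rw [hg] at he1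
      rcases e with b | y
      · exact absurd rfl (he2 b)
      · exact ⟨y, rfl, he1.1, he1.2⟩
    by_cases hgv : g v = k
    · refine (hl2 v hgv).trans (Nat.sub_le_sub_left ?_ _)
      refine card_le_of_nbr E (fun e => Sum.elim (fun _ => r) id e) ?_ ?_
      · intro a ha b hb hab
        obtain ⟨y, rfl, -, -⟩ := hE' a ha
        obtain ⟨y', rfl, -, -⟩ := hE' b hb
        exact congrArg _ hab
      · intro a ha
        obtain ⟨y, rfl, -, hy⟩ := hE' a ha
        exact hy
    · have : E = ∅ := by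
        rw [Finset.eq_empty_iff_forall_notMem]
        intro e he
        obtain ⟨y, -, h2, -⟩ := hE' e he
        exact hgv h2
      rw [this]
      exact hl1 v
  · right
    change ∀ v, φ v = Sum.inl k ∨ ∃ x, x ≠ r ∧ φ v = Sum.inr x at h1
    have h1' : ∀ v, ∃ y, φ v = jmap k r y := by
      intro v
      rcases h1 v with h2 | ⟨x, hx, h2⟩
      · exact ⟨r, by rw [jmap_root]; exact h2⟩
      · exact ⟨x, by rw [jmap_ne k hx]; exact h2⟩
    choose g hg using h1'
    have hcomap := glue_comap_jmap G k Q r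
    refine ⟨g, hg, fun ℓ' hl1 hl2 => h.restr (jmap k r) (jmap_injective k r)
      (fun a b hab => by rw [← hcomap]; exact hab) g hg ?_⟩
    intro v E hE
    have hE' : ∀ e ∈ E, ∃ y, e = Sum.inl y ∧ g v = r ∧ G.Adj k y := by
      intro e he
      obtain ⟨he1, he2⟩ := hE e he
      rcases e with b | y
      · by_cases hgv : g v = r
        · rw [hg, hgv, jmap_root] at he1
          exact ⟨b, rfl, hgv, he1⟩
        · rw [hg, jmap_ne k hgv] at he1
          exact absurd (by rw [jmap_root]; exact congrArg _ he1.1) (he2 r)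
      · by_cases hy : y = r
        · exfalso
          by_cases hgv : g v = r
          · rw [hg, hgv, jmap_root, hy] at he1
            exact Q.irrefl he1.2
          · rw [hg, jmap_ne k hgv, hy] at he1
            exact he1.2.1 rfl
        · exact absurd (jmap_ne k hy).symm (he2 y)
    by_cases hgv : g v = r
    · refine (hl2 v hgv).trans (Nat.sub_le_sub_left ?_ _)
      refine card_le_of_nbr E (fun e => Sum.elim id (fun _ => k) e) ?_ ?_
      · intro a ha b hb hab
        obtain ⟨y, rfl, -, -⟩ := hE' a ha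
        obtain ⟨y', rfl, -, -⟩ := hE' b hb
        exact congrArg _ hab
      · intro a ha
        obtain ⟨y, rfl, -, hy⟩ := hE' a ha
        exact hy
    · have : E = ∅ := by
        rw [Finset.eq_empty_iff_forall_notMem]
        intro e he
        obtain ⟨y, -, h2, -⟩ := hE' e he
        exact hgv h2
      rw [this]
      exact hl1 v

/-- From a copy of `B` with the pendant edges at one vertex reduced. -/
theorem free_or_near {B : SimpleGraph V} {ℓ : V → ℕ} {G : SimpleGraph K} {k : K} {g : V → K}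
    {d : ℕ} (hinj : Function.Injective g)
    (hG : ∀ ℓ' : V → ℕ, (∀ v, ℓ' v ≤ ℓ v) → (∀ v, g v = k → ℓ' v ≤ ℓ v - d) → PA B ℓ' G g)
    (hfree : (pendL B ℓ).Free G) (hnear : ¬ Near B ℓ d G k) : False := by
  by_cases hex : ∃ z, g z = k ∧ 0 < ℓ z
  · obtain ⟨z, hz, hz0⟩ := hex
    apply hnear
    rw [near_iff]
    refine ⟨z, hz0, g, hG _ (fun v => low_le _ _ _ _) ?_, hz⟩
    intro v hv
    have : v = z := hinj (hv.trans hz.symm)
    rw [this, low_self]
  · push Not at hex
    apply hfree
    rw [pendL_isContained_iff]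
    refine ⟨g, hG _ (fun v => le_rfl) ?_⟩
    intro v hv
    have := hex v hv
    omega

theorem glu : GluStmt := by
  intro V _ B ℓ hB K L _ _ G k Q r
  refine ⟨?_, ?_⟩
  · intro hG hQ h1 h2 hcon
    rw [pendL_isContained_iff] at hcon
    obtain ⟨φ, hφ⟩ := hcon
    rcases glue_cases hB G k Q r hφ with ⟨g, hg, h3⟩ | ⟨g, hg, h3⟩
    · exact free_or_near (fun a b hab => hφ.1 (by rw [hg, hg, hab])) h3 hG h1
    · exact free_or_near (fun a b hab => hφ.1 (by rw [hg, hg, hab])) h3 hQ h2
  · intro m hm h1 h2 hcon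
    rw [near_iff] at hcon
    obtain ⟨z, hz, φ, hφ, hφz⟩ := hcon
    have hz0 : low ℓ z m z = 0 := by
      rw [low_self]
      have := hm z
      omega
    rcases glue_cases hB G k Q r hφ with ⟨g, hg, h3⟩ | ⟨g, hg, h3⟩
    · apply h1
      rw [near_iff]
      have hgz : g z = k := by
        rw [hg] at hφz
        exact Sum.inl_injective hφz
      refine ⟨z, hz, g, h3 _ (fun v => le_rfl) ?_, hgz⟩
      intro v hv
      have : v = z := hφ.1 (by rw [hg, hg, hv, hgz])
      rw [this, hz0]
      exact Nat.zero_le _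
    · apply h2
      rw [near_iff]
      have hgz : g z = r := by
        rw [hg, ← jmap_root k r] at hφz
        exact jmap_injective k r hφz
      refine ⟨z, hz, g, h3 _ (fun v => le_rfl) ?_, hgz⟩
      intro v hv
      have : v = z := hφ.1 (by rw [hg, hg, hv, hgz])
      rw [this, hz0]
      exact Nat.zero_le _

/-! ### Many roots -/

open Classical in
/-- The embedding of `L` in `K ⊕ K × L` at `t`. -/
noncomputable def jm {K L : Type} (t : K) (r : L) (l : L) : K ⊕ K × L :=
  if l = r then Sum.inl t else Sum.inr (t, l)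

theorem jm_root {K L : Type} (t : K) (r : L) : jm t r r = Sum.inl t := by
  simp [jm]

theorem jm_ne {K L : Type} (t : K) {r l : L} (h : l ≠ r) : jm t r l = Sum.inr (t, l) := by
  simp [jm, h]

theorem jm_injective {K L : Type} (t : K) (r : L) : Function.Injective (jm t r) := by
  intro a b hab
  by_cases ha : a = r
  · by_cases hb : b = r
    · rw [ha, hb]
    · rw [ha, jm_root, jm_ne t hb] at hab
      exact absurd hab (by simp)
  · by_cases hb : b = r
    · rw [hb, jm_root, jm_ne t ha] at hab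
      exact absurd hab (by simp)
    · rw [jm_ne t ha, jm_ne t hb] at hab
      exact (Prod.mk.inj (Sum.inr_injective hab)).2

theorem mglue_comap_jm {K L : Type} (G : SimpleGraph K) (T : Set K) (Q : SimpleGraph L) (r : L)
    {t : K} (ht : t ∈ T) : (mglue G T Q r).comap (jm t r) = Q := by
  ext a b
  rw [comap_adj]
  by_cases ha : a = r
  · by_cases hb : b = r
    · rw [ha, hb, jm_root]
      constructor
      · intro h
        exact absurd h (mglue G T Q r).irrefl
      · intro h
        exact absurd h Q.irrefl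
    · rw [ha, jm_root, jm_ne t hb]
      show (t ∈ T ∧ t = t ∧ Q.Adj r b) ↔ Q.Adj r b
      simp [ht]
  · by_cases hb : b = r
    · rw [hb, jm_root, jm_ne t ha]
      show (t ∈ T ∧ t = t ∧ Q.Adj r a) ↔ Q.Adj a r
      rw [Q.adj_comm a r]
      simp [ht]
    · rw [jm_ne t ha, jm_ne t hb]
      show (t ∈ T ∧ t = t ∧ a ≠ r ∧ b ≠ r ∧ Q.Adj a b) ↔ Q.Adj a b
      simp [ha, hb, ht]

theorem mglue_cases [Finite K] [Finite L] {B : SimpleGraph V} (hB : TwoConn B) {ℓ : V → ℕ}
    (G : SimpleGraph K) (T : Set K) (Q : SimpleGraph L) (r : L) {φ : V → K ⊕ K × L}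
    (h : PA B ℓ (mglue G T Q r) φ) :
    (∃ g : V → K, (∀ v, φ v = Sum.inl (g v)) ∧ (∀ u v, B.Adj u v → G.Adj (g u) (g v)) ∧
      ∀ ℓ' : V → ℕ, (∀ v, ℓ' v ≤ ℓ v) → (∀ v, g v ∈ T → ℓ' v = 0) → PA B ℓ' G g) ∨
    (∃ t ∈ T, ∃ g : V → L, (∀ v, φ v = jm t r (g v)) ∧
      (∀ ℓ' : V → ℕ, (∀ v, ℓ' v ≤ ℓ v) → (∀ v, g v = r → ℓ' v = 0) → PA B ℓ' Q g) ∧
      ((∀ x, ¬ G.Adj t x) → PA B ℓ Q g)) := by
  rcases mglue_block hB G T Q r ⟨⟨φ, fun {a b} hab => h.2.1 a b hab⟩, h.1⟩ with h1 | ⟨t, ht, h1⟩
  · left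
    change ∀ v, ∃ b, φ v = Sum.inl b at h1
    choose g hg using h1
    refine ⟨g, hg, fun u v huv => ?_, fun ℓ' hl1 hl2 => h.restr Sum.inl Sum.inl_injective
      (fun a b hab => hab) g hg ?_⟩
    · have := h.2.1 u v huv
      rw [hg, hg] at this
      exact this
    · intro v E hE
      by_cases hgv : g v ∈ T
      · rw [hl2 v hgv]
        exact Nat.zero_le _
      · have : E = ∅ := by
          rw [Finset.eq_empty_iff_forall_notMem]
          intro e he
          obtain ⟨he1, he2⟩ := hE e he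
          rw [hg] at he1
          rcases e with b | y
          · exact he2 b rfl
          · exact hgv he1.1
        rw [this]
        exact hl1 v
  · right
    change ∀ v, φ v = Sum.inl t ∨ ∃ x, x ≠ r ∧ φ v = Sum.inr (t, x) at h1
    have h1' : ∀ v, ∃ y, φ v = jm t r y := by
      intro v
      rcases h1 v with h2 | ⟨x, hx, h2⟩
      · exact ⟨r, by rw [jm_root]; exact h2⟩
      · exact ⟨x, by rw [jm_ne t hx]; exact h2⟩
    choose g hg using h1'
    have hcomap := mglue_comap_jm G T Q r ht
    -- neighbours of `φ v` outside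
    have hE' : ∀ v e, (mglue G T Q r).Adj (φ v) e → (∀ a, e ≠ jm t r a) →
        g v = r ∧ ∃ y, G.Adj t y := by
      intro v e he1 he2
      rcases e with b | ⟨s, y⟩
      · by_cases hgv : g v = r
        · rw [hg, hgv, jm_root] at he1
          exact ⟨hgv, b, he1⟩
        · rw [hg, jm_ne t hgv] at he1
          obtain ⟨-, h3, -⟩ := he1
          exact absurd (by rw [jm_root]; exact congrArg _ h3.symm) (he2 r)
      · exfalso
        by_cases hgv : g v = r
        · rw [hg, hgv, jm_root] at he1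
          obtain ⟨-, h3, h4⟩ := he1
          change s = t at h3
          subst h3
          have hy : y ≠ r := h4.ne'
          exact he2 y (jm_ne s hy).symm
        · rw [hg, jm_ne t hgv] at he1
          obtain ⟨-, h3, -, h4, -⟩ := he1
          change t = s at h3
          subst h3
          exact he2 y (jm_ne t h4).symm
    refine ⟨t, ht, g, hg, fun ℓ' hl1 hl2 => h.restr (jm t r) (jm_injective t r)
      (fun a b hab => by rw [← hcomap]; exact hab) g hg ?_,
      fun hiso => h.restr (jm t r) (jm_injective t r)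
      (fun a b hab => by rw [← hcomap]; exact hab) g hg ?_⟩
    · intro v E hE
      by_cases hgv : g v = r
      · rw [hl2 v hgv]
        exact Nat.zero_le _
      · have : E = ∅ := by
          rw [Finset.eq_empty_iff_forall_notMem]
          intro e he
          obtain ⟨he1, he2⟩ := hE e he
          exact hgv (hE' v e he1 he2).1
        rw [this]
        exact hl1 v
    · intro v E hE
      have : E = ∅ := by
        rw [Finset.eq_empty_iff_forall_notMem]
        intro e he
        obtain ⟨he1, he2⟩ := hE e he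
        obtain ⟨-, y, hy⟩ := hE' v e he1 he2
        exact hiso y hy
      rw [this]
      exact le_rfl

theorem mgl : MglStmt := by
  intro V _ B ℓ m hB hm K L _ _ G T Q r
  refine ⟨?_, ?_⟩
  · intro hG hQ hnear
    refine ⟨?_, ?_⟩
    · intro hcon
      rw [pendL_isContained_iff] at hcon
      obtain ⟨φ, hφ⟩ := hcon
      rcases mglue_cases hB G T Q r hφ with ⟨g, hg, h2, h3⟩ | ⟨t, ht, g, hg, h3, -⟩
      · exact hG ⟨⟨⟨g, fun {a b} hab => h2 a b hab⟩, fun a b hab =>
          hφ.1 (by rw [hg, hg]; exact congrArg _ hab)⟩⟩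
      · have hgi : Function.Injective g := fun a b hab => hφ.1 (by rw [hg, hg, hab])
        refine free_or_near hgi (d := m) ?_ hQ hnear
        intro ℓ' hl1 hl2
        refine h3 ℓ' hl1 fun v hv => ?_
        have := hl2 v hv
        have := hm v
        omega
    · intro v hv k hcon
      rw [near_iff] at hcon
      obtain ⟨z, hz, φ, hφ, hφz⟩ := hcon
      rcases mglue_cases hB G T Q r hφ with ⟨g, hg, h2, h3⟩ | ⟨t, ht, g, hg, h3, -⟩
      · exact hG ⟨⟨⟨g, fun {a b} hab => h2 a b hab⟩, fun a b hab =>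
          hφ.1 (by rw [hg, hg]; exact congrArg _ hab)⟩⟩
      · rw [hg] at hφz
        by_cases hgz : g z = r
        · rw [hgz, jm_root] at hφz
          exact hv (Sum.inl_injective hφz ▸ ht)
        · rw [jm_ne t hgz] at hφz
          exact absurd hφz (by simp)
  · intro hG hQ hiso
    refine ⟨?_, ?_⟩
    · intro hcon
      rw [pendL_isContained_iff] at hcon
      obtain ⟨φ, hφ⟩ := hcon
      rcases mglue_cases hB G T Q r hφ with ⟨g, hg, h2, h3⟩ | ⟨t, ht, g, hg, -, h3⟩
      · apply hG
        rw [pendL_isContained_iff]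
        refine ⟨g, h3 ℓ (fun v => le_rfl) fun v hv => ?_⟩
        exfalso
        obtain ⟨u, hu⟩ := hB.exists_adj v
        exact hiso _ hv _ (h2 v u hu)
      · apply hQ
        rw [pendL_isContained_iff]
        exact ⟨g, h3 (hiso t ht)⟩
    · intro v hv k hcon
      rw [near_iff] at hcon ⊢
      obtain ⟨z, hz, φ, hφ, hφz⟩ := hcon
      rcases mglue_cases hB G T Q r hφ with ⟨g, hg, h2, h3⟩ | ⟨t, ht, g, hg, h3, -⟩
      · refine ⟨z, hz, g, h3 _ (fun v => le_rfl) fun v hv => ?_, ?_⟩
        · exfalso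
          obtain ⟨u, hu⟩ := hB.exists_adj v
          exact hiso _ hv _ (h2 v u hu)
        · rw [hg] at hφz
          exact Sum.inl_injective hφz
      · rw [hg] at hφz
        by_cases hgz : g z = r
        · rw [hgz, jm_root] at hφz
          exact absurd (Sum.inl_injective hφz ▸ ht) hv
        · rw [jm_ne t hgz] at hφz
          exact absurd hφz (by simp)

end Pool.Agent.RS81
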