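import Pool.Agent.Helper80_RS2.Glue

/-!
# MP_ff6f12_co: module LFT (squad RS2)
-/

set_option autoImplicit false

open SimpleGraph

namespace Pool.Agent.RS81

open Pool.Agent.RS80

variable {V K L : Type}

/-- A copy of `B` in the host grows pendant edges inside the glued gadgets. -/
theorem grow [Finite L] {B : SimpleGraph V} {X : SimpleGraph (K ⊕ K × L)} {T : Set K} {r : L}
    {m : ℕ} (hX : ∀ t ∈ T, m ≤ ((X.comap (jm t r)).neighborSet r).ncard) {ψ : V → K}
    (hψ : Function.Injective ψ)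
    (hadj : ∀ u v, B.Adj u v → X.Adj (Sum.inl (ψ u)) (Sum.inl (ψ v))) {ℓ : V → ℕ}
    (hl : ∀ v, ℓ v ≤ m) (hl0 : ∀ v, ψ v ∉ T → ℓ v = 0) :
    PA B ℓ X (fun v => Sum.inl (ψ v)) := by
  classical
  have hfin : ∀ v, ((X.comap (jm (ψ v) r)).neighborSet r).Finite := fun v => Set.toFinite _
  refine ⟨fun a b hab => hψ (Sum.inl_injective hab), hadj,
    fun v => if ψ v ∈ T then (hfin v).toFinset.map ⟨jm (ψ v) r, jm_injective _ _⟩ else ∅,
    ?_, ?_, ?_⟩
  · intro v
    by_cases hv : ψ v ∈ T
    · simp only [if_pos hv]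
      rw [Finset.card_map, ← Set.ncard_eq_toFinset_card _ (hfin v)]
      exact (hl v).trans (hX _ hv)
    · rw [hl0 v hv]
      exact Nat.zero_le _
  · intro v a ha
    by_cases hv : ψ v ∈ T
    · simp only [if_pos hv] at ha
      rw [Finset.mem_map] at ha
      obtain ⟨y, hy, rfl⟩ := ha
      rw [Set.Finite.mem_toFinset, mem_neighborSet, comap_adj] at hy
      have hyr : y ≠ r := by
        rintro rfl
        exact X.irrefl hy
      rw [jm_root] at hy
      refine ⟨hy, fun w hw => ?_⟩
      change jm (ψ v) r y = _ at hw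
      rw [jm_ne _ hyr] at hw
      exact absurd hw (by simp)
    · simp [hv] at ha
  · intro u v huv
    rw [Finset.disjoint_left]
    intro a ha hb
    by_cases hu : ψ u ∈ T
    · by_cases hv : ψ v ∈ T
      · simp only [if_pos hu] at ha
        simp only [if_pos hv] at hb
        rw [Finset.mem_map] at ha hb
        obtain ⟨y, hy, rfl⟩ := ha
        obtain ⟨y', hy', h⟩ := hb
        rw [Set.Finite.mem_toFinset, mem_neighborSet, comap_adj] at hy hy'
        have hyr : y ≠ r := by
          rintro rfl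
          exact X.irrefl hy
        have hyr' : y' ≠ r := by
          rintro rfl
          exact X.irrefl hy'
        change jm (ψ v) r y' = jm (ψ u) r y at h
        rw [jm_ne _ hyr, jm_ne _ hyr'] at h
        have h2 := (Prod.mk.inj (Sum.inr_injective h)).1
        exact huv (hψ h2.symm)
      · simp [hv] at hb
    · simp [hu] at ha

theorem lft_half [Finite V] [Finite K] [Finite L] {B : SimpleGraph V} {ℓ : V → ℕ} {m : ℕ}
    (hB : TwoConn B) (hm : ∀ v, ℓ v ≤ m) {N : SimpleGraph L} {r : L}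
    (hN : ∀ R S, Good (pendL B ℓ) N R S →
        m ≤ (R.neighborSet r).ncard ∧ m ≤ (S.neighborSet r).ncard)
    {M : SimpleGraph K} {r' : K} (hM : ∀ R S, Good B M R S → (∃ x, R.Adj r' x) ∧ ∃ y, S.Adj r' y)
    {R S : SimpleGraph (K ⊕ K × L)}
    (hRS : Good (pendL B ℓ) (mglue M {r'}ᶜ N r) R S) :
    (∃ x, R.Adj (Sum.inl r') x) ∨ Near B ℓ m S (Sum.inl r') := by
  by_contra hcon
  rw [not_or] at hcon
  obtain ⟨hno, hnear⟩ := hcon
  push Not at hno
  have hdeg : ∀ t ∈ ({r'}ᶜ : Set K), m ≤ ((R.comap (jm t r)).neighborSet r).ncard ∧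
      m ≤ ((S.comap (jm t r)).neighborSet r).ncard := by
    intro t ht
    refine hN _ _ (hRS.comap (jm t r) (jm_injective t r) ?_)
    intro a b
    rw [← comap_adj, mglue_comap_jm M _ N r ht]
  -- a monochromatic copy of `B` in the host
  have key : ∀ X : SimpleGraph (K ⊕ K × L), (pendL B ℓ).Free X →
      (∀ t ∈ ({r'}ᶜ : Set K), m ≤ ((X.comap (jm t r)).neighborSet r).ncard) →
      ((∀ x, ¬ X.Adj (Sum.inl r') x) ∨ ¬ Near B ℓ m X (Sum.inl r')) →
      B.Free (X.comap Sum.inl) := by
    rintro X hXf hXd hX2 ⟨f⟩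
    have hfi : Function.Injective f := f.injective
    have hfa : ∀ u v, B.Adj u v → X.Adj (Sum.inl (f u)) (Sum.inl (f v)) := fun u v huv =>
      f.toHom.map_rel huv
    by_cases hex : ∃ z, f z = r' ∧ 0 < ℓ z
    · obtain ⟨z, hz, hz0⟩ := hex
      have hpa : PA B (low ℓ z m) X (fun v => Sum.inl (f v)) := by
        refine grow hXd hfi hfa (fun v => (low_le _ _ _ _).trans (hm v)) ?_
        intro v hv
        have hv' : f v = r' := by
          by_contra h
          exact hv h
        have : v = z := hfi (hv'.trans hz.symm)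
        rw [this, low_self]
        have := hm z
        omega
      rcases hX2 with hX2 | hX2
      · obtain ⟨u, hu⟩ := hB.exists_adj z
        have := hfa z u hu
        rw [hz] at this
        exact hX2 _ this
      · apply hX2
        rw [near_iff]
        exact ⟨z, hz0, _, hpa, congrArg _ hz⟩
    · push Not at hex
      apply hXf
      rw [pendL_isContained_iff]
      refine ⟨_, grow hXd hfi hfa hm ?_⟩
      intro v hv
      have hv' : f v = r' := by
        by_contra h
        exact hv h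
      have := hex v hv'
      omega
  have hfR : B.Free (R.comap Sum.inl) := key R hRS.2.1 (fun t ht => (hdeg t ht).1) (Or.inl hno)
  have hfS : B.Free (S.comap Sum.inl) := key S hRS.2.2 (fun t ht => (hdeg t ht).2) (Or.inr hnear)
  have hgood : Good B M (R.comap Sum.inl) (S.comap Sum.inl) := by
    refine ⟨?_, hfR, hfS⟩
    ext a b
    have h1 : (mglue M {r'}ᶜ N r).Adj (Sum.inl a) (Sum.inl b) ↔ M.Adj a b := Iff.rfl
    rw [← h1, ← hRS.1]
    rfl
  obtain ⟨⟨x, hx⟩, -⟩ := hM _ _ hgood
  exact hno _ hx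

theorem lft (hHvy : HvyStmt) (hBmx : BmxStmt) : LftStmt := by
  intro V _ B ℓ m hB hc hm
  obtain ⟨L, _, N, r, hN, R0, S0, hRS0, hn1, hn2⟩ := hHvy V B ℓ m hB hc hm
  obtain ⟨K, _, M, r', hM, R1, S1, hRS1, hdeg⟩ := hBmx V B hB hc
  refine ⟨K ⊕ K × L, inferInstance, mglue M {r'}ᶜ N r, Sum.inl r', ?_, ?_⟩
  · intro R S hRS
    refine ⟨lft_half hB hm hN hM hRS, ?_⟩
    exact lft_half hB hm hN hM hRS.swap
  · have hR := (mgl V B ℓ m hB hm K L R1 {r'}ᶜ R0 r).1 hRS1.2.1 hRS0.2.1 hn1
    have hS := (mgl V B ℓ m hB hm K L S1 {r'}ᶜ S0 r).1 hRS1.2.2 hRS0.2.2 hn2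
    have hr' : r' ∉ ({r'}ᶜ : Set K) := fun h => h rfl
    refine ⟨mglue R1 {r'}ᶜ R0 r, mglue S1 {r'}ᶜ S0 r, ⟨?_, hR.1, hS.1⟩, ?_, hR.2 r' hr' m,
      hS.2 r' hr' m⟩
    · rw [mglue_sup, hRS1.1, hRS0.1]
    · have : (mglue R1 {r'}ᶜ R0 r).neighborSet (Sum.inl r') = Sum.inl '' (R1.neighborSet r') := by
        ext x
        rcases x with b | y
        · constructor
          · intro h
            exact ⟨b, h, rfl⟩
          · rintro ⟨b', h, hb⟩
            rw [← Sum.inl_injective hb]
            exact h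
        · constructor
          · intro h
            exact absurd h.1 hr'
          · rintro ⟨b', h, hb⟩
            exact absurd hb (by simp)
      rw [this, Set.ncard_image_of_injective _ Sum.inl_injective]
      exact hdeg

end Pool.Agent.RS81
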