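import Pool.Agent.Helper80_RS2.Stmts
import Pool.Agent.Helper80_RS.Glue

/-!
# MP_ff6f12_co: counting half of GON (squad RS2)
-/

set_option autoImplicit false

open SimpleGraph

namespace Pool.Agent.RS81

open Pool.Agent.RS80

theorem cnt {W : Type} (H : SimpleGraph W) (hc : H.Connected) (n d : ℕ)
    (E E' : SimpleGraph (Fin n))
    (hmax : ∀ F : SimpleGraph (Fin n), H.Free F → F.edgeSet.ncard ≤ E.edgeSet.ncard)
    (hdis : Disjoint E E') (hbig : d * n < E'.edgeSet.ncard) :
    ∀ R S, Good H (E ⊔ E') R S →
      ∃ x, d ≤ (R.neighborSet x).ncard ∧ d ≤ (S.neighborSet x).ncard := by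
  classical
  intro R S hRS
  by_contra hcon
  push Not at hcon
  set V1 : Set (Fin n) := {x | (S.neighborSet x).ncard < d} with hV1
  have hV2 : ∀ x, x ∉ V1 → (R.neighborSet x).ncard < d := by
    intro x hx
    by_contra h
    push Not at h
    exact hx (hcon x h)
  let F : SimpleGraph (Fin n) :=
    { Adj := fun x y => (x ∈ V1 ∧ y ∈ V1 ∧ R.Adj x y) ∨ (x ∉ V1 ∧ y ∉ V1 ∧ S.Adj x y)
      symm := ⟨by
        rintro x y (h | h)
        · exact Or.inl ⟨h.2.1, h.1, h.2.2.symm⟩
        · exact Or.inr ⟨h.2.1, h.1, h.2.2.symm⟩⟩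
      loopless := ⟨by
        rintro x (h | h)
        · exact h.2.2.ne rfl
        · exact h.2.2.ne rfl⟩ }
  have hF : H.Free F := by
    rintro ⟨f⟩
    have hadj : ∀ a b, H.Adj a b → F.Adj (f a) (f b) := fun a b hab => f.toHom.map_rel hab
    obtain ⟨a0⟩ := hc.nonempty
    by_cases h0 : f a0 ∈ V1
    · have hall : ∀ a, f a ∈ V1 := fun a =>
        prop_of_preconnected hc.preconnected (fun a => f a ∈ V1) (fun u v huv hu => by
          rcases hadj u v huv with h | h
          · exact h.2.1
          · exact absurd hu h.1) h0 a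
      refine hRS.2.1 ⟨⟨⟨f, fun {a b} hab => ?_⟩, f.injective⟩⟩
      rcases hadj a b hab with h | h
      · exact h.2.2
      · exact absurd (hall a) h.1
    · have hall : ∀ a, f a ∉ V1 := fun a =>
        prop_of_preconnected hc.preconnected (fun a => f a ∉ V1) (fun u v huv hu => by
          rcases hadj u v huv with h | h
          · exact absurd h.1 hu
          · exact h.2.1) h0 a
      refine hRS.2.2 ⟨⟨⟨f, fun {a b} hab => ?_⟩, f.injective⟩⟩
      rcases hadj a b hab with h | h
      · exact absurd h.1 (hall a)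
      · exact h.2.2
  have hle := hmax F hF
  let D : Fin n → Finset (Sym2 (Fin n)) := fun x =>
    if x ∈ V1 then (S.neighborSet x).toFinset.image (fun y => s(x, y))
    else (R.neighborSet x).toFinset.image (fun y => s(x, y))
  have hD : ∀ x, (D x).card ≤ d := by
    intro x
    by_cases hx : x ∈ V1
    · simp only [D, if_pos hx]
      refine Finset.card_image_le.trans ?_
      have : (S.neighborSet x).ncard < d := hx
      rw [Set.ncard_eq_toFinset_card'] at this
      exact this.le
    · simp only [D, if_neg hx]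
      refine Finset.card_image_le.trans ?_
      have := hV2 x hx
      rw [Set.ncard_eq_toFinset_card'] at this
      exact this.le
  set U : Finset (Sym2 (Fin n)) := Finset.univ.biUnion D with hU
  have hUc : U.card ≤ d * n := by
    refine (Finset.card_biUnion_le).trans ?_
    refine (Finset.sum_le_sum (fun x _ => hD x)).trans ?_
    rw [Finset.sum_const, Finset.card_univ, Fintype.card_fin, smul_eq_mul, mul_comm]
  have hsub : (E ⊔ E').edgeSet ⊆ F.edgeSet ∪ (U : Set (Sym2 (Fin n))) := by
    intro e he
    induction e with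
    | _ x y =>
      rw [mem_edgeSet] at he
      have hxy := hRS.adj he
      have hmemU : ∀ z, s(x, y) ∈ D z → s(x, y) ∈ F.edgeSet ∪ (U : Set (Sym2 (Fin n))) := by
        intro z hz
        right
        rw [Finset.mem_coe, hU, Finset.mem_biUnion]
        exact ⟨z, Finset.mem_univ _, hz⟩
      have hmem : ∀ z w, s(x, y) = s(z, w) → z ∈ V1 → S.Adj z w →
          s(x, y) ∈ F.edgeSet ∪ (U : Set (Sym2 (Fin n))) := by
        intro z w hzw hz hadj
        apply hmemU z
        simp only [D, if_pos hz]
        rw [Finset.mem_image]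
        exact ⟨w, Set.mem_toFinset.2 hadj, hzw.symm⟩
      have hmem' : ∀ z w, s(x, y) = s(z, w) → z ∉ V1 → R.Adj z w →
          s(x, y) ∈ F.edgeSet ∪ (U : Set (Sym2 (Fin n))) := by
        intro z w hzw hz hadj
        apply hmemU z
        simp only [D, if_neg hz]
        rw [Finset.mem_image]
        exact ⟨w, Set.mem_toFinset.2 hadj, hzw.symm⟩
      rcases hxy with h | h
      · by_cases hx : x ∈ V1
        · by_cases hy : y ∈ V1
          · left
            rw [mem_edgeSet]
            exact Or.inl ⟨hx, hy, h⟩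
          · exact hmem' y x Sym2.eq_swap hy h.symm
        · exact hmem' x y rfl hx h
      · by_cases hx : x ∈ V1
        · exact hmem x y rfl hx h
        · by_cases hy : y ∈ V1
          · exact hmem y x Sym2.eq_swap hy h.symm
          · left
            rw [mem_edgeSet]
            exact Or.inr ⟨hx, hy, h⟩
  have h1 : (E ⊔ E').edgeSet.ncard = E.edgeSet.ncard + E'.edgeSet.ncard := by
    rw [edgeSet_sup, Set.ncard_union_eq (disjoint_edgeSet.2 hdis) (Set.toFinite _) (Set.toFinite _)]
  have h2 : (E ⊔ E').edgeSet.ncard ≤ F.edgeSet.ncard + U.card := by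
    refine (Set.ncard_le_ncard hsub (Set.toFinite _)).trans ((Set.ncard_union_le _ _).trans ?_)
    rw [Set.ncard_coe_finset]
  omega

end Pool.Agent.RS81
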