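import Pool.Agent.Helper80_RS2.Lft
import Pool.Agent.Helper80_RS2.Cel
import Pool.Agent.Helper80_RS2.Asm
import Pool.Agent.Helper60_RS2.Ktt
import Pool.Agent.Helper60_RS2.Stw
import Pool.Agent.Helper39_RS2.Mix
import Pool.Agent.Helper39_RS2.Cnv
import Pool.Agent.Helper25_RS2.Hvy
import Pool.Agent.Helper25_RS2.Ffm
import Pool.Agent.Helper25_RS2.Red
import Pool.Agent.Helper33_RS2.Ske
import Pool.Agent.Helper21_RS2.Cyl
import Pool.Agent.Helper21_RS2.Bmx
import Pool.Agent.Helper83_RS2.Gon

/-!
# Theorem E2: the assembly of all modules (no hypotheses left)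
-/

open SimpleGraph

namespace Pool.Agent.RS81

theorem asmAll : AsmStmt := by
  have hgon : GonStmt := H83.gon H60.ktt
  have hmix : MixStmt := H39.mix H60.ktt hgon
  have hhvy : HvyStmt := H25.hvy hmix glu
  have hffm : FfmStmt := H25.ffm hhvy glu
  have hlft : LftStmt := lft hhvy (H21.bmx H60.ktt)
  have hred : RedStmt := H25.red hffm hlft glu
  have hcel : CelStmt := cel hred H33.ske
  exact asm hcel

theorem mainAll : MainStmt := main asmAll H60.stw H39.cnv

end Pool.Agent.RS81
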