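import Pool.Agent.Helper80_RS2.Defs
import Pool.Agent.Helper80_RS.Asm
import Pool.Agent.Helper25_RS.Pon

/-!
# MP_ff6f12_co: basic lemmas (squad RS2)
-/

set_option autoImplicit false

open SimpleGraph

namespace Pool.Agent.RS81

open Pool.Agent.RS80

variable {V K L : Type}

theorem low_self (ℓ : V → ℕ) (z : V) (k : ℕ) : low ℓ z k z = ℓ z - k := by simp [low]

theorem low_ne (ℓ : V → ℕ) {z v : V} (k : ℕ) (h : v ≠ z) : low ℓ z k v = ℓ v := by
  simp [low, h]

theorem low_le (ℓ : V → ℕ) (z : V) (k : ℕ) (v : V) : low ℓ z k v ≤ ℓ v := by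
  unfold low
  split_ifs
  · exact Nat.sub_le _ _
  · exact le_rfl

theorem low_zero (ℓ : V → ℕ) (z : V) : low ℓ z 0 = ℓ := by
  funext v
  unfold low
  split_ifs <;> simp

theorem PA.mono_ell {B : SimpleGraph V} {ℓ ℓ' : V → ℕ} {G : SimpleGraph K} {φ : V → K}
    (h : PA B ℓ G φ) (hl : ∀ v, ℓ' v ≤ ℓ v) : PA B ℓ' G φ := by
  obtain ⟨h1, h2, A, h3, h4, h5⟩ := h
  exact ⟨h1, h2, A, fun v => (hl v).trans (h3 v), h4, h5⟩

theorem PA.map {B : SimpleGraph V} {ℓ : V → ℕ} {G : SimpleGraph K} {G' : SimpleGraph L}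
    {φ : V → K} (h : PA B ℓ G φ) (f : K → L) (hf : Function.Injective f)
    (hadj : ∀ a b, G.Adj a b → G'.Adj (f a) (f b)) : PA B ℓ G' (fun v => f (φ v)) := by
  obtain ⟨h1, h2, A, h3, h4, h5⟩ := h
  classical
  refine ⟨fun a b hab => h1 (hf hab), fun u v huv => hadj _ _ (h2 u v huv),
    fun v => (A v).map ⟨f, hf⟩, ?_, ?_, ?_⟩
  · intro v
    rw [Finset.card_map]
    exact h3 v
  · intro v a ha
    rw [Finset.mem_map] at ha
    obtain ⟨b, hb, rfl⟩ := ha
    refine ⟨hadj _ _ (h4 v b hb).1, fun w hw => (h4 v b hb).2 w (hf hw)⟩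
  · intro u v huv
    rw [Finset.disjoint_map]
    exact h5 u v huv

theorem PA.mono {B : SimpleGraph V} {ℓ : V → ℕ} {G G' : SimpleGraph K} {φ : V → K}
    (h : PA B ℓ G φ) (hle : G ≤ G') : PA B ℓ G' φ :=
  h.map (fun x => x) (fun _ _ h => h) (fun _ _ h => hle h)

/-- Extra neighbours of `φ z` which are isolated in the smaller graph `G0`. -/
theorem PA.extra {B : SimpleGraph V} (hB : ∀ v, ∃ u, B.Adj u v) {ℓ ℓ' : V → ℕ}
    {G0 G : SimpleGraph K} {φ : V → K} (h : PA B ℓ G0 φ) (hle : G0 ≤ G) (z : V)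
    (E : Finset K) (hE : ∀ e ∈ E, G.Adj (φ z) e) (hE' : ∀ e ∈ E, ∀ x, ¬ G0.Adj x e)
    (hz : ℓ' z ≤ ℓ z + E.card) (hne : ∀ v, v ≠ z → ℓ' v ≤ ℓ v) : PA B ℓ' G φ := by
  obtain ⟨h1, h2, A, h3, h4, h5⟩ := h
  classical
  have hdisj : ∀ v, Disjoint (A v) E := by
    intro v
    rw [Finset.disjoint_left]
    intro a ha haE
    exact hE' a haE _ (h4 v a ha).1
  refine ⟨h1, fun u v huv => hle (h2 u v huv), fun v => if v = z then A v ∪ E else A v, ?_, ?_, ?_⟩
  · intro v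
    by_cases hv : v = z
    · subst hv
      simp only [if_true]
      rw [Finset.card_union_of_disjoint (hdisj v)]
      have := h3 v
      omega
    · simp only [if_neg hv]
      exact (hne v hv).trans (h3 v)
  · intro v a ha
    by_cases hv : v = z
    · subst hv
      simp only [if_true] at ha
      rw [Finset.mem_union] at ha
      rcases ha with ha | ha
      · exact ⟨hle (h4 v a ha).1, (h4 v a ha).2⟩
      · refine ⟨hE a ha, fun w hw => ?_⟩
        obtain ⟨u, hu⟩ := hB w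
        exact hE' a ha (φ u) (hw ▸ h2 u w hu)
    · simp only [if_neg hv] at ha
      exact ⟨hle (h4 v a ha).1, (h4 v a ha).2⟩
  · intro u v huv
    by_cases hu : u = z
    · have hv : v ≠ z := fun h => huv (hu.trans h.symm)
      simp only [if_pos hu, if_neg hv]
      rw [Finset.disjoint_union_left]
      exact ⟨h5 u v huv, (hdisj v).symm⟩
    · by_cases hv : v = z
      · simp only [if_neg hu, if_pos hv]
        rw [Finset.disjoint_union_right]
        exact ⟨h5 u v huv, hdisj u⟩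
      · simp only [if_neg hu, if_neg hv]
        exact h5 u v huv

/-! ### Copies and `PA` -/

theorem pa_of_copy {B : SimpleGraph V} {ℓ : V → ℕ} {G : SimpleGraph K}
    (f : Copy (pendL B ℓ) G) : PA B ℓ G (fun v => f (Sum.inl v)) := by
  classical
  have hinj : Function.Injective f := f.injective
  refine ⟨fun a b hab => Sum.inl_injective (hinj hab), fun u v huv => ?_,
    fun v => Finset.univ.map ⟨fun i : Fin (ℓ v) => f (Sum.inr ⟨v, i⟩), ?_⟩, ?_, ?_, ?_⟩
  · exact f.toHom.map_rel (show (pendL B ℓ).Adj (Sum.inl u) (Sum.inl v) from huv)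
  · intro i j hij
    have := hinj hij
    simpa using this
  · intro v
    rw [Finset.card_map, Finset.card_univ, Fintype.card_fin]
  · intro v a ha
    rw [Finset.mem_map] at ha
    obtain ⟨i, -, rfl⟩ := ha
    refine ⟨f.toHom.map_rel (show (pendL B ℓ).Adj (Sum.inl v) (Sum.inr ⟨v, i⟩) from rfl),
      fun w hw => ?_⟩
    have h1 : (Sum.inr ⟨v, i⟩ : V ⊕ Σ v, Fin (ℓ v)) = Sum.inl w := hinj hw
    exact absurd h1 (by simp)
  · intro u v huv
    rw [Finset.disjoint_left]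
    intro a ha hb
    rw [Finset.mem_map] at ha hb
    obtain ⟨i, -, rfl⟩ := ha
    obtain ⟨j, -, hj⟩ := hb
    have h1 : (Sum.inr ⟨v, j⟩ : V ⊕ Σ v, Fin (ℓ v)) = Sum.inr ⟨u, i⟩ := hinj hj
    rw [Sum.inr.injEq] at h1
    exact huv (congrArg Sigma.fst h1).symm

theorem PA.copy {B : SimpleGraph V} {ℓ : V → ℕ} {G : SimpleGraph K} {φ : V → K}
    (h : PA B ℓ G φ) : ∃ f : Copy (pendL B ℓ) G, ∀ v, f (Sum.inl v) = φ v := by
  obtain ⟨h1, h2, A, h3, h4, h5⟩ := h
  classical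
  have hex : ∀ v, ∃ g : Fin (ℓ v) → K, Function.Injective g ∧ ∀ i, g i ∈ A v := by
    intro v
    obtain ⟨e⟩ : Nonempty (Fin (ℓ v) ↪ A v) :=
      Function.Embedding.nonempty_of_card_le (by rw [Fintype.card_fin, Fintype.card_coe]; exact h3 v)
    exact ⟨fun i => (e i).1, fun i j hij => e.injective (Subtype.ext hij), fun i => (e i).2⟩
  choose g hg1 hg2 using hex
  have hadj : ∀ v i, G.Adj (φ v) (g v i) := fun v i => (h4 v _ (hg2 v i)).1
  have hne : ∀ v i w, g v i ≠ φ w := fun v i w => (h4 v _ (hg2 v i)).2 w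
  have hinj2 : ∀ v i w j, g v i = g w j → (⟨v, i⟩ : Σ v, Fin (ℓ v)) = ⟨w, j⟩ := by
    intro v i w j hij
    by_cases hvw : v = w
    · subst hvw
      rw [hg1 v hij]
    · exact absurd (hij ▸ hg2 v i) (fun hh => (Finset.disjoint_left.1 (h5 v w hvw)) (hg2 v i)
        (hij ▸ hg2 w j))
  refine ⟨⟨⟨Sum.elim φ (fun x => g x.1 x.2), ?_⟩, ?_⟩, fun v => rfl⟩
  · rintro (u | ⟨u, i⟩) (v | ⟨v, j⟩) hh
    · exact h2 u v hh
    · change u = v at hh
      subst hh
      exact hadj u j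
    · change v = u at hh
      subst hh
      exact (hadj v i).symm
    · exact hh.elim
  · rintro (u | ⟨u, i⟩) (v | ⟨v, j⟩) hh
    · exact congrArg _ (h1 hh)
    · exact absurd hh.symm (hne v j u)
    · exact absurd hh (hne u i v)
    · exact congrArg _ (hinj2 u i v j hh)

theorem pendL_isContained_iff {B : SimpleGraph V} {ℓ : V → ℕ} {G : SimpleGraph K} :
    pendL B ℓ ⊑ G ↔ ∃ φ, PA B ℓ G φ := by
  constructor
  · rintro ⟨f⟩
    exact ⟨_, pa_of_copy f⟩
  · rintro ⟨φ, h⟩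
    obtain ⟨f, -⟩ := h.copy
    exact ⟨f⟩

theorem near_iff {B : SimpleGraph V} {ℓ : V → ℕ} {k : ℕ} {G : SimpleGraph K} {v : K} :
    Near B ℓ k G v ↔ ∃ z, 0 < ℓ z ∧ ∃ φ, PA B (low ℓ z k) G φ ∧ φ z = v := by
  constructor
  · rintro ⟨z, hz, f, hf⟩
    exact ⟨z, hz, _, pa_of_copy f, hf⟩
  · rintro ⟨z, hz, φ, h, hv⟩
    obtain ⟨f, hf⟩ := h.copy
    exact ⟨z, hz, f, (hf z).trans hv⟩

/-- The core of a copy of `B` is a `PA` with `ℓ = 0`. -/
theorem pa_zero_iff {B : SimpleGraph V} {G : SimpleGraph K} {φ : V → K} :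
    PA B (fun _ => 0) G φ ↔ Function.Injective φ ∧ ∀ u v, B.Adj u v → G.Adj (φ u) (φ v) := by
  constructor
  · rintro ⟨h1, h2, -⟩
    exact ⟨h1, h2⟩
  · rintro ⟨h1, h2⟩
    exact ⟨h1, h2, fun _ => ∅, by simp, by simp, by simp⟩

theorem PA.core {B : SimpleGraph V} {ℓ : V → ℕ} {G : SimpleGraph K} {φ : V → K}
    (h : PA B ℓ G φ) : B ⊑ G :=
  ⟨⟨⟨φ, fun {a b} hab => h.2.1 a b hab⟩, h.1⟩⟩

theorem core_isContained (B : SimpleGraph V) (ℓ : V → ℕ) : B ⊑ pendL B ℓ :=
  ⟨⟨⟨Sum.inl, fun {_ _} hh => hh⟩, Sum.inl_injective⟩⟩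

/-! ### Near -/

theorem Near.mono_k {B : SimpleGraph V} {ℓ : V → ℕ} {k k' : ℕ} {G : SimpleGraph K} {v : K}
    (h : Near B ℓ k G v) (hk : k ≤ k') : Near B ℓ k' G v := by
  rw [near_iff] at h ⊢
  obtain ⟨z, hz, φ, h, hv⟩ := h
  refine ⟨z, hz, φ, h.mono_ell fun w => ?_, hv⟩
  unfold low
  split_ifs
  · omega
  · exact le_rfl

theorem Near.mono {B : SimpleGraph V} {ℓ : V → ℕ} {k : ℕ} {G G' : SimpleGraph K} {v : K}
    (h : Near B ℓ k G v) (hle : G ≤ G') : Near B ℓ k G' v := by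
  rw [near_iff] at h ⊢
  obtain ⟨z, hz, φ, h, hv⟩ := h
  exact ⟨z, hz, φ, h.mono hle, hv⟩

theorem Near.map {B : SimpleGraph V} {ℓ : V → ℕ} {k : ℕ} {G : SimpleGraph K}
    {G' : SimpleGraph L} {v : K} (h : Near B ℓ k G v) (f : K → L) (hf : Function.Injective f)
    (hadj : ∀ a b, G.Adj a b → G'.Adj (f a) (f b)) : Near B ℓ k G' (f v) := by
  rw [near_iff] at h ⊢
  obtain ⟨z, hz, φ, h, hv⟩ := h
  exact ⟨z, hz, _, h.map f hf hadj, congrArg f hv⟩

theorem Near.zero {B : SimpleGraph V} {ℓ : V → ℕ} {G : SimpleGraph K} {v : K}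
    (h : Near B ℓ 0 G v) : pendL B ℓ ⊑ G := by
  rw [near_iff] at h
  obtain ⟨z, -, φ, h, -⟩ := h
  rw [low_zero] at h
  exact pendL_isContained_iff.2 ⟨φ, h⟩

/-- `k`-near plus extra neighbours, isolated in the smaller graph. -/
theorem Near.extra {B : SimpleGraph V} (hB : ∀ v, ∃ u, B.Adj u v) {ℓ : V → ℕ} {k : ℕ}
    {G0 G : SimpleGraph K} {v : K} (h : Near B ℓ k G0 v) (hle : G0 ≤ G) (E : Finset K)
    (hE : ∀ e ∈ E, G.Adj v e) (hE' : ∀ e ∈ E, ∀ x, ¬ G0.Adj x e) {k' : ℕ}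
    (hk : k ≤ k' + E.card) : Near B ℓ k' G v := by
  rw [near_iff] at h ⊢
  obtain ⟨z, hz, φ, h, hv⟩ := h
  refine ⟨z, hz, φ, h.extra hB hle z E (fun e he => hv ▸ hE e he) hE' ?_ ?_, hv⟩
  · rw [low_self, low_self]
    omega
  · intro w hw
    rw [low_ne _ _ hw, low_ne _ _ hw]

/-- A vertex of degree `≥ |H|` is not near in an `H`-free graph. -/
theorem not_near_of_deg [Finite V] [Finite K] {B : SimpleGraph V} {ℓ : V → ℕ} {k : ℕ}
    {G : SimpleGraph K} {v : K} (hG : (pendL B ℓ).Free G)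
    (hd : Nat.card (V ⊕ Σ v, Fin (ℓ v)) ≤ (G.neighborSet v).ncard) : ¬ Near B ℓ k G v := by
  intro h
  rw [near_iff] at h
  obtain ⟨z, hz, φ, ⟨h1, h2, A, h3, h4, h5⟩, hv⟩ := h
  classical
  have := Fintype.ofFinite V
  have := Fintype.ofFinite K
  apply hG
  rw [pendL_isContained_iff]
  -- shrink the sets `A w`, `w ≠ z`
  have hsh : ∀ w, ∃ A' ⊆ A w, A'.card = low ℓ z k w := fun w =>
    Finset.exists_subset_card_eq (h3 w)
  choose A' hA'1 hA'2 using hsh
  set U : Finset K := (Finset.univ.erase z).biUnion A' with hU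
  set F : Finset K := Finset.univ.image φ ∪ U with hF
  have hUcard : U.card ≤ ∑ w ∈ Finset.univ.erase z, ℓ w := by
    refine Finset.card_biUnion_le.trans (Finset.sum_le_sum fun w hw => ?_)
    rw [hA'2]
    exact low_le _ _ _ _
  have hFcard : F.card ≤ Fintype.card V + ∑ w ∈ Finset.univ.erase z, ℓ w := by
    refine (Finset.card_union_le _ _).trans (Nat.add_le_add ?_ hUcard)
    exact Finset.card_image_le.trans (by rw [Finset.card_univ])
  have hcard : Nat.card (V ⊕ Σ v, Fin (ℓ v)) = Fintype.card V + ∑ w, ℓ w := by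
    rw [Nat.card_eq_fintype_card, Fintype.card_sum, Fintype.card_sigma]
    simp
  have hsum : ∑ w ∈ Finset.univ.erase z, ℓ w + ℓ z = ∑ w, ℓ w :=
    Finset.sum_erase_add _ _ (Finset.mem_univ z)
  have hN : (G.neighborSet v).ncard = (G.neighborSet v).toFinset.card := by
    rw [Set.ncard_eq_toFinset_card']
  set D : Finset K := (G.neighborSet v).toFinset \ F with hD
  have hDcard : ℓ z ≤ D.card := by
    have : (G.neighborSet v).toFinset.card - F.card ≤ D.card :=
      Finset.le_card_sdiff F (G.neighborSet v).toFinset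
    rw [hcard, hN] at hd
    omega
  refine ⟨φ, h1, h2, fun w => if w = z then D else A' w, ?_, ?_, ?_⟩
  · intro w
    by_cases hw : w = z
    · simp only [if_pos hw]
      rw [hw]
      exact hDcard
    · simp only [if_neg hw]
      rw [hA'2, low_ne _ _ hw]
  · intro w a ha
    by_cases hw : w = z
    · simp only [if_pos hw] at ha
      rw [hD, Finset.mem_sdiff, Set.mem_toFinset, SimpleGraph.mem_neighborSet, hF,
        Finset.mem_union, not_or] at ha
      rw [hw, hv]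
      refine ⟨ha.1, fun x hx => ha.2.1 ?_⟩
      rw [Finset.mem_image]
      exact ⟨x, Finset.mem_univ _, hx.symm⟩
    · simp only [if_neg hw] at ha
      exact h4 w a (hA'1 w ha)
  · have key : ∀ w, w ≠ z → Disjoint D (A' w) := by
      intro w hw
      rw [Finset.disjoint_left]
      intro a ha hb
      rw [hD, Finset.mem_sdiff, hF, Finset.mem_union, not_or] at ha
      apply ha.2.2
      rw [hU, Finset.mem_biUnion]
      exact ⟨w, Finset.mem_erase.2 ⟨hw, Finset.mem_univ _⟩, hb⟩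
    intro u w huw
    by_cases hu : u = z
    · have hw : w ≠ z := fun h => huw (hu.trans h.symm)
      simp only [if_pos hu, if_neg hw]
      exact key w hw
    · by_cases hw : w = z
      · simp only [if_neg hu, if_pos hw]
        exact (key u hu).symm
      · simp only [if_neg hu, if_neg hw]
        exact Disjoint.mono (hA'1 u) (hA'1 w) (h5 u w huw)

/-- `k`-near in a graph which sits in a bigger one, plus extra neighbours outside. -/
theorem Near.ext {B : SimpleGraph V} (hB : ∀ v, ∃ u, B.Adj u v) {ℓ : V → ℕ} {k k' : ℕ}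
    {G : SimpleGraph L} {R : SimpleGraph K} (i : L → K) (hi : Function.Injective i)
    (hG : ∀ a b, G.Adj a b → R.Adj (i a) (i b)) {v : L} (hv : Near B ℓ k G v) (E : Finset K)
    (hE : ∀ e ∈ E, R.Adj (i v) e) (hE' : ∀ e ∈ E, ∀ a, i a ≠ e) (hk : k ≤ k' + E.card) :
    Near B ℓ k' R (i v) := by
  have h1 : Near B ℓ k (G.map i) (i v) :=
    hv.map i hi (fun a b hab => ⟨fun h => hab.ne (hi h), a, b, hab, rfl, rfl⟩)
  refine h1.extra hB ?_ E hE ?_ hk
  · rintro x y ⟨-, a, b, hab, rfl, rfl⟩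
    exact hG a b hab
  · rintro e he x ⟨-, a, b, -, -, hb⟩
    exact hE' e he b hb

theorem TwoConn.adj' {B : SimpleGraph V} (hB : TwoConn B) (v : V) : ∃ u, B.Adj u v := by
  obtain ⟨u, hu⟩ := hB.exists_adj v
  exact ⟨u, hu.symm⟩

/-- A near vertex has at least two neighbours; in particular it has one. -/
theorem Near.exists_adj {B : SimpleGraph V} (hB : TwoConn B) {ℓ : V → ℕ} {k : ℕ}
    {G : SimpleGraph K} {v : K} (hv : Near B ℓ k G v) : ∃ w, G.Adj v w := by
  rw [near_iff] at hv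
  obtain ⟨z, hz, φ, h, rfl⟩ := hv
  obtain ⟨u, hu⟩ := hB.exists_adj z
  exact ⟨φ u, h.2.1 _ _ hu⟩

/-! ### Restricting colourings -/

/-- Restriction of an `H`-free colouring to a graph `G'` sitting in `G`. -/
theorem Good.restr {A : Type} {H : SimpleGraph A} {G R S : SimpleGraph K} {G' : SimpleGraph L}
    (h : Good H G R S) (i : L → K) (hi : Function.Injective i)
    (hG : ∀ a b, G'.Adj a b → G.Adj (i a) (i b)) :
    Good H G' (R.comap i ⊓ G') (S.comap i ⊓ G') := by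
  refine ⟨?_, ?_, ?_⟩
  · ext a b
    rw [sup_adj, inf_adj, inf_adj, comap_adj, comap_adj]
    constructor
    · rintro (hh | hh)
      · exact hh.2
      · exact hh.2
    · intro hab
      have := hG a b hab
      rw [← h.1, sup_adj] at this
      rcases this with h1 | h1
      · exact Or.inl ⟨h1, hab⟩
      · exact Or.inr ⟨h1, hab⟩
  · rintro ⟨f⟩
    exact h.2.1 ⟨⟨⟨fun a => i (f a), fun {a b} hab => (f.toHom.map_rel hab).1⟩,
      hi.comp f.injective⟩⟩
  · rintro ⟨f⟩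
    exact h.2.2 ⟨⟨⟨fun a => i (f a), fun {a b} hab => (f.toHom.map_rel hab).1⟩,
      hi.comp f.injective⟩⟩

/-- `C` is closed under subgraphs. -/
theorem InC.restr {A : Type} {H : SimpleGraph A} {G : SimpleGraph K} {G' : SimpleGraph L}
    (h : InC H G) (i : L → K) (hi : Function.Injective i)
    (hG : ∀ a b, G'.Adj a b → G.Adj (i a) (i b)) : InC H G' := by
  obtain ⟨R, S, hRS⟩ := h
  exact ⟨_, _, Good.restr hRS i hi hG⟩

/-- A copy of `B` with all its vertices having `≥ ℓ` private neighbours. -/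
theorem pendL_of_private {B : SimpleGraph V} {ℓ : V → ℕ} {R : SimpleGraph K} {φ : V → K}
    (h1 : Function.Injective φ) (h2 : ∀ u v, B.Adj u v → R.Adj (φ u) (φ v))
    (A : V → Finset K) (h3 : ∀ v, ℓ v ≤ (A v).card)
    (h4 : ∀ v, ∀ a ∈ A v, R.Adj (φ v) a ∧ ∀ w, a ≠ φ w)
    (h5 : ∀ u v, u ≠ v → Disjoint (A u) (A v)) : pendL B ℓ ⊑ R :=
  pendL_isContained_iff.2 ⟨φ, h1, h2, A, h3, h4, h5⟩

end Pool.Agent.RS81
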