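import Pool.Agent.Helper80_RS.Defs

/-!
# MP_ff6f12_co: definitions (squad RS2, arbitrary pendant edges)
-/

set_option autoImplicit false

open SimpleGraph

namespace Pool.Agent.RS81

open Pool.Agent.RS80

/-- `B` with `ℓ v` pendant edges added at every vertex `v`. -/
def pendL {V : Type} (B : SimpleGraph V) (ℓ : V → ℕ) : SimpleGraph (V ⊕ Σ v, Fin (ℓ v)) where
  Adj x y := match x, y with
    | .inl u, .inl v => B.Adj u v
    | .inl u, .inr z => u = z.1
    | .inr z, .inl u => u = z.1
    | .inr _, .inr _ => False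
  symm := ⟨by
    rintro (u | z) (v | w) h
    · exact B.symm.symm _ _ h
    · exact h
    · exact h
    · exact h⟩
  loopless := ⟨by
    rintro (u | z) h
    · exact B.loopless.irrefl u h
    · exact h⟩

open Classical in
/-- `ℓ` lowered by `k` at `z` (truncated). -/
noncomputable def low {V : Type} (ℓ : V → ℕ) (z : V) (k : ℕ) : V → ℕ :=
  fun v => if v = z then ℓ v - k else ℓ v

/-- `v` is `k`-near in `G`: it is the vertex `z`, `ℓ z > 0`, of a copy of `H = pendL B ℓ` with at
most `k` pendant edges at `z` missing. For `k = 0` this gives a copy of `H`. -/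
def Near {V K : Type} (B : SimpleGraph V) (ℓ : V → ℕ) (k : ℕ) (G : SimpleGraph K) (v : K) :
    Prop :=
  ∃ z, 0 < ℓ z ∧ ∃ f : Copy (pendL B (low ℓ z k)) G, f (Sum.inl z) = v

/-- Working form of: a copy of `pendL B ℓ` in `G` whose core is `φ`. `φ` is a copy of `B` and the
vertices `φ v` have pairwise disjoint sets `A v` of at least `ℓ v` neighbours outside `φ`. -/
def PA {V K : Type} (B : SimpleGraph V) (ℓ : V → ℕ) (G : SimpleGraph K) (φ : V → K) : Prop :=
  Function.Injective φ ∧ (∀ u v, B.Adj u v → G.Adj (φ u) (φ v)) ∧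
    ∃ A : V → Finset K, (∀ v, ℓ v ≤ (A v).card) ∧
      (∀ v, ∀ a ∈ A v, G.Adj (φ v) a ∧ ∀ w, a ≠ φ w) ∧
      (∀ u v, u ≠ v → Disjoint (A u) (A v))

end Pool.Agent.RS81
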