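import Pool.Agent.Helper80_RS2.Basic
import Pool.Agent.Helper60_RS.Ktt

/-!
# MP_ff6f12_co: statements of the modules (squad RS2)

`H = pendL B ℓ` always (`B` with `ℓ v` pendant edges at every vertex `v`). Every module proves its
statement; the statements in brackets are hypotheses of the module.
-/

set_option autoImplicit false

open SimpleGraph

namespace Pool.Agent.RS81

open Pool.Agent.RS80

/-- The star with centre `u` and leaves `S`. -/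
def starG {K : Type} (u : K) (S : Set K) : SimpleGraph K :=
  SimpleGraph.fromRel (fun x y => x = u ∧ y ∈ S)

/-- GLU: glueing at one vertex. (a) `H`-free; (b) the root is not near afterwards. -/
def GluStmt : Prop :=
  ∀ (V : Type) [Finite V] (B : SimpleGraph V) (ℓ : V → ℕ), TwoConn B →
    ∀ (K L : Type) [Finite K] [Finite L] (G : SimpleGraph K) (k : K) (Q : SimpleGraph L) (r : L),
      ((pendL B ℓ).Free G → (pendL B ℓ).Free Q →
        ¬ Near B ℓ (Q.neighborSet r).ncard G k → ¬ Near B ℓ (G.neighborSet k).ncard Q r →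
        (pendL B ℓ).Free (glue G k Q r)) ∧
      (∀ m, (∀ v, ℓ v ≤ m) → ¬ Near B ℓ m G k → ¬ Near B ℓ m Q r →
        ¬ Near B ℓ m (glue G k Q r) (Sum.inl k))

/-- MGL: glueing at many vertices. (a) host `B`-free, root not `m`-near; (b) the vertices of `T`
isolated in the host. -/
def MglStmt : Prop :=
  ∀ (V : Type) [Finite V] (B : SimpleGraph V) (ℓ : V → ℕ) (m : ℕ), TwoConn B → (∀ v, ℓ v ≤ m) →
    ∀ (K L : Type) [Finite K] [Finite L] (G : SimpleGraph K) (T : Set K) (Q : SimpleGraph L)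
      (r : L),
      (B.Free G → (pendL B ℓ).Free Q → ¬ Near B ℓ m Q r →
        (pendL B ℓ).Free (mglue G T Q r) ∧
        ∀ v ∉ T, ∀ k, ¬ Near B ℓ k (mglue G T Q r) (Sum.inl v)) ∧
      ((pendL B ℓ).Free G → (pendL B ℓ).Free Q → (∀ t ∈ T, ∀ x, ¬ G.Adj t x) →
        (pendL B ℓ).Free (mglue G T Q r) ∧
        ∀ v ∉ T, ∀ k, Near B ℓ k (mglue G T Q r) (Sum.inl v) → Near B ℓ k G v)

/-- KTT: graphs with an `H`-free colouring contain no `K_{t,t}` for some `t`, for every bipartite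
`H`. -/
def KttStmt : Prop :=
  ∀ (W : Type) [Finite W] (H : SimpleGraph W), H.Colorable 2 →
    ∃ t : ℕ, ∀ (K : Type) [Finite K] (G : SimpleGraph K), InC H G →
      (completeBipartiteGraph (Fin t) (Fin t)).Free G

/-- GON [Ktt]: a graph every `H`-free colouring of which has a vertex with at least `d` edges in
both colours. -/
def GonStmt : Prop :=
  ∀ (V : Type) [Finite V] (B : SimpleGraph V) (ℓ : V → ℕ), TwoConn B → B.Colorable 2 →
    ∀ d : ℕ, ∃ (n : ℕ) (G : SimpleGraph (Fin n)), InC (pendL B ℓ) G ∧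
      ∀ R S, Good (pendL B ℓ) G R S →
        ∃ x, d ≤ (R.neighborSet x).ncard ∧ d ≤ (S.neighborSet x).ncard

/-- MIX [Ktt, Gon]: mixed gadget with a rich root. -/
def MixStmt : Prop :=
  ∀ (V : Type) [Finite V] (B : SimpleGraph V) (ℓ : V → ℕ), TwoConn B → B.Colorable 2 →
    ∀ d : ℕ, ∃ (L : Type) (_ : Finite L) (M : SimpleGraph L) (r : L),
      (∀ R S, Good (pendL B ℓ) M R S → (∃ x, R.Adj r x) ∧ (∃ y, S.Adj r y)) ∧
      ∃ R S, Good (pendL B ℓ) M R S ∧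
        d ≤ (R.neighborSet r).ncard ∧ d ≤ (S.neighborSet r).ncard

/-- HVY [Mix, Glu]: heavy light gadget. -/
def HvyStmt : Prop :=
  ∀ (V : Type) [Finite V] (B : SimpleGraph V) (ℓ : V → ℕ) (m : ℕ), TwoConn B →
    B.Colorable 2 → (∀ v, ℓ v ≤ m) →
    ∃ (L : Type) (_ : Finite L) (N : SimpleGraph L) (r : L),
      (∀ R S, Good (pendL B ℓ) N R S →
        m ≤ (R.neighborSet r).ncard ∧ m ≤ (S.neighborSet r).ncard) ∧
      ∃ R S, Good (pendL B ℓ) N R S ∧ ¬ Near B ℓ m R r ∧ ¬ Near B ℓ m S r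

/-- FFM [Hvy, Glu]: a root which is `m`-near in some colour, in every `H`-free colouring. -/
def FfmStmt : Prop :=
  ∀ (V : Type) [Finite V] (B : SimpleGraph V) (ℓ : V → ℕ) (m : ℕ), TwoConn B →
    B.Colorable 2 → (∀ v, ℓ v ≤ m) → ¬ RamseyEquiv B (pendL B ℓ) →
    ∃ (L : Type) (_ : Finite L) (Q : SimpleGraph L) (t : L), InC (pendL B ℓ) Q ∧
      ∀ R S, Good (pendL B ℓ) Q R S → Near B ℓ m R t ∨ Near B ℓ m S t

/-- BMX [Ktt]: mixed gadget for `B`, light. -/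
def BmxStmt : Prop :=
  ∀ (V : Type) [Finite V] (B : SimpleGraph V), TwoConn B → B.Colorable 2 →
    ∃ (K : Type) (_ : Finite K) (M : SimpleGraph K) (r : K),
      (∀ R S, Good B M R S → (∃ x, R.Adj r x) ∧ (∃ y, S.Adj r y)) ∧
      ∃ R S, Good B M R S ∧ (R.neighborSet r).ncard = 1

/-- LFT [Hvy, Bmx, Mgl]: the lifted gadget. -/
def LftStmt : Prop :=
  ∀ (V : Type) [Finite V] (B : SimpleGraph V) (ℓ : V → ℕ) (m : ℕ), TwoConn B →
    B.Colorable 2 → (∀ v, ℓ v ≤ m) →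
    ∃ (L : Type) (_ : Finite L) (Y : SimpleGraph L) (r : L),
      (∀ R S, Good (pendL B ℓ) Y R S →
        ((∃ x, R.Adj r x) ∨ Near B ℓ m S r) ∧ ((∃ x, S.Adj r x) ∨ Near B ℓ m R r)) ∧
      ∃ R S, Good (pendL B ℓ) Y R S ∧ (R.neighborSet r).ncard = 1 ∧
        ¬ Near B ℓ m R r ∧ ¬ Near B ℓ m S r

/-- The class `C` is closed under adding one pendant edge. -/
def PClosed {W : Type} (H : SimpleGraph W) : Prop :=
  ∀ (K : Type) [Finite K] (G : SimpleGraph K) (v : K), InC H G → InC H (cone G {v})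

/-- RED [Ffm, Lft, Glu]: under pendant closure, a root which is `1`-near in exactly one colour. -/
def RedStmt : Prop :=
  ∀ (V : Type) [Finite V] (B : SimpleGraph V) (ℓ : V → ℕ) (m : ℕ), TwoConn B →
    B.Colorable 2 → (∀ v, ℓ v ≤ m) → (∃ v, 0 < ℓ v) → ¬ RamseyEquiv B (pendL B ℓ) →
    PClosed (pendL B ℓ) →
    ∃ (L : Type) (_ : Finite L) (Q : SimpleGraph L) (t : L), InC (pendL B ℓ) Q ∧
      ∀ R S, Good (pendL B ℓ) Q R S →
        (Near B ℓ 1 R t ∧ ¬ Near B ℓ m S t) ∨ (Near B ℓ 1 S t ∧ ¬ Near B ℓ m R t)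

/-- SKE: the skeleton. -/
def SkeStmt : Prop :=
  ∀ (V : Type) [Finite V] (B : SimpleGraph V) (ℓ : V → ℕ) (m : ℕ), TwoConn B →
    (∀ v, ℓ v ≤ m) → ∀ (c : B.Coloring Bool) (z : V) (q n : ℕ), q ≤ m →
    ∃ (K : Type) (_ : Finite K) (D : SimpleGraph K) (P : Set K) (u : K),
      B.Free D ∧ u ∉ P ∧ P.ncard = n ∧
      (∀ p ∈ insert u P, ∀ p' ∈ insert u P, ¬ D.Adj p p') ∧
      (∃ t, t ∉ insert u P) ∧
      (∀ t ∉ insert u P, ∀ t' ∉ insert u P,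
        Relation.ReflTransGen (fun a b => a ∉ insert u P ∧ b ∉ insert u P ∧ D.Adj a b) t t') ∧
      (D.neighborSet u).ncard = q ∧
      (∀ p ∈ P, ∀ p' ∈ P, p ≠ p' → pendL B ℓ ⊑ D ⊔ edge p p') ∧
      (∀ S ⊆ P, S.ncard = {v | c v = c z}.ncard →
        pendL B ℓ ⊑ D ⊔ starG u S ∨ Near B ℓ (m - q) (D ⊔ starG u S) u) ∧
      (m ≤ q + 1 → ∀ S ⊆ P, Nat.card V ≤ S.ncard + 1 → {v | c v = c z}.ncard ≤ S.ncard →
        pendL B ℓ ⊑ D ⊔ starG u S)

/-- CEL [Red, Ske, Mgl]: the cell `Γ_{j,m-j}`. -/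
def CelStmt : Prop :=
  ∀ (V : Type) [Finite V] (B : SimpleGraph V) (ℓ : V → ℕ) (m : ℕ), TwoConn B →
    B.Colorable 2 → (∀ v, ℓ v ≤ m) → (∃ z, ℓ z = m) → ¬ RamseyEquiv B (pendL B ℓ) →
    PClosed (pendL B ℓ) → ∀ j, 1 ≤ j → j ≤ m →
    ∃ (K : Type) (_ : Finite K) (G : SimpleGraph K) (u : K),
      (∀ R S, Good (pendL B ℓ) G R S →
        (Near B ℓ j R u ∧ (j = 1 → m - 1 ≤ (S.neighborSet u).ncard)) ∨
        (Near B ℓ j S u ∧ (j = 1 → m - 1 ≤ (R.neighborSet u).ncard))) ∧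
      ∃ R S, Good (pendL B ℓ) G R S ∧ (S.neighborSet u).ncard = m - j ∧
        (∀ k, ¬ Near B ℓ k S u) ∧ ¬ Near B ℓ (j - 1) R u

/-- ASM [Cel, Glu]: a doubly `1`-near vertex, so a forbidden pendant edge. -/
def AsmStmt : Prop :=
  ∀ (V : Type) [Finite V] (B : SimpleGraph V) (ℓ : V → ℕ), TwoConn B → B.Colorable 2 →
    (∃ v, 0 < ℓ v) → ¬ RamseyEquiv B (pendL B ℓ) → ¬ PClosed (pendL B ℓ)

/-- STW: a forbidden pendant edge gives `s_2(H) = 1`. -/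
def StwStmt : Prop :=
  ∀ (V : Type) [Finite V] (B : SimpleGraph V) (ℓ : V → ℕ), TwoConn B → (∃ v, 0 < ℓ v) →
    ¬ PClosed (pendL B ℓ) → RamseySimple (pendL B ℓ)

/-- CNV: the converse. -/
def CnvStmt : Prop :=
  ∀ (V : Type) [Finite V] (B : SimpleGraph V) (ℓ : V → ℕ), TwoConn B → (∃ v, 0 < ℓ v) →
    RamseySimple (pendL B ℓ) → ¬ RamseyEquiv B (pendL B ℓ)

/-- KNN: complete graphs. -/
def KnnStmt : Prop :=
  ∀ (V : Type) [Finite V] (B : SimpleGraph V) (ℓ : V → ℕ), TwoConn B → B.Colorable 2 →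
    (∃ v, 0 < ℓ v) →
    Arrows (⊤ : SimpleGraph (Fin (Nat.card (V ⊕ Σ v, Fin (ℓ v)) + smallSide (pendL B ℓ) - 2))) B →
    ¬ RamseyEquiv B (pendL B ℓ)

/-- SMS: larger smaller side. -/
def SmsStmt : Prop :=
  ∀ (V : Type) [Finite V] (B : SimpleGraph V) (ℓ : V → ℕ), TwoConn B → B.Colorable 2 →
    smallSide B < smallSide (pendL B ℓ) → ¬ RamseyEquiv B (pendL B ℓ)

/-- BIG [Ktt, Knn]: all large decorations. -/
def BigStmt : Prop :=
  ∀ (V : Type) [Finite V] (B : SimpleGraph V), TwoConn B → B.Colorable 2 →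
    ∃ n : ℕ, Arrows (⊤ : SimpleGraph (Fin n)) B ∧
      ∀ ℓ : V → ℕ, n ≤ Nat.card (V ⊕ Σ v, Fin (ℓ v)) → (∃ v, 0 < ℓ v) →
        ¬ RamseyEquiv B (pendL B ℓ)

/-- CYC: even cycles. -/
def CycStmt : Prop :=
  ∀ k : ℕ, 3 ≤ k → TwoConn (cycleGraph (2 * k)) ∧ (cycleGraph (2 * k)).Colorable 2 ∧
    ∀ ℓ : Fin (2 * k) → ℕ, (∃ v, 0 < ℓ v) →
      ¬ RamseyEquiv (cycleGraph (2 * k)) (pendL (cycleGraph (2 * k)) ℓ)

/-- CY4: the cycle of length 4, at least two pendant edges. -/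
def Cy4Stmt : Prop :=
  TwoConn (cycleGraph 4) ∧ (cycleGraph 4).Colorable 2 ∧
    ∀ ℓ : Fin 4 → ℕ, 2 ≤ ∑ v, ℓ v → ¬ RamseyEquiv (cycleGraph 4) (pendL (cycleGraph 4) ℓ)

/-- Main theorem. -/
def MainStmt : Prop :=
  ∀ (V : Type) [Finite V] (B : SimpleGraph V) (ℓ : V → ℕ), TwoConn B → B.Colorable 2 →
    (∃ v, 0 < ℓ v) → (RamseySimple (pendL B ℓ) ↔ ¬ RamseyEquiv B (pendL B ℓ))

theorem main (h1 : AsmStmt) (h2 : StwStmt) (h3 : CnvStmt) : MainStmt :=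
  fun V _ B ℓ hB hc hl => ⟨h3 V B ℓ hB hl, fun h => h2 V B ℓ hB hl (h1 V B ℓ hB hc hl h)⟩

end Pool.Agent.RS81
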